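import Mathlib

/-!
# Banach lattices: closed ideals, quotients, semiprojectivity, `1⁺`-projectivity

Definitions for problem `MP_d0fcce_an`.
-/

open Set Filter Topology TopologicalSpace

set_option linter.unusedSectionVars false

namespace Pool.Agent.H45.BanachLattice

universe u v w

/-- A closed ideal of a Banach lattice: a closed subspace `J` such that `a ∈ J` and `|b| ≤ |a|`
imply `b ∈ J`. -/
structure ClosedIdeal (E : Type u) [NormedAddCommGroup E] [Lattice E] [NormedSpace ℝ E]
    extends Submodule ℝ E where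
  isClosed' : IsClosed carrier
  solid' : ∀ {a b : E}, a ∈ carrier → |b| ≤ |a| → b ∈ carrier

section Quotient

variable {E : Type u} [NormedAddCommGroup E] [Lattice E] [NormedSpace ℝ E]

instance (J : ClosedIdeal E) : IsClosed (J.toSubmodule : Set E) := J.isClosed'

lemma ClosedIdeal.solid (J : ClosedIdeal E) {a b : E} (ha : a ∈ J.toSubmodule) (h : |b| ≤ |a|) :
    b ∈ J.toSubmodule := J.solid' ha h

variable [IsOrderedAddMonoid E]

lemma abs_sup_sub_sup_le (a b c d : E) : |a ⊔ b - c ⊔ d| ≤ |a - c| + |b - d| := by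
  calc
    |a ⊔ b - c ⊔ d| = |a ⊔ b - c ⊔ b + (c ⊔ b - c ⊔ d)| := by rw [sub_add_sub_cancel]
    _ ≤ |a ⊔ b - c ⊔ b| + |c ⊔ b - c ⊔ d| := abs_add_le _ _
    _ ≤ |a - c| + |b - d| := by
      apply add_le_add
      · exact abs_sup_sub_sup_le_abs _ _ _
      · rw [sup_comm c, sup_comm c]
        exact abs_sup_sub_sup_le_abs _ _ _

lemma abs_inf_sub_inf_le (a b c d : E) : |a ⊓ b - c ⊓ d| ≤ |a - c| + |b - d| := by
  calc
    |a ⊓ b - c ⊓ d| = |a ⊓ b - c ⊓ b + (c ⊓ b - c ⊓ d)| := by rw [sub_add_sub_cancel]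
    _ ≤ |a ⊓ b - c ⊓ b| + |c ⊓ b - c ⊓ d| := abs_add_le _ _
    _ ≤ |a - c| + |b - d| := by
      apply add_le_add
      · exact abs_inf_sub_inf_le_abs _ _ _
      · rw [inf_comm c, inf_comm c]
        exact abs_inf_sub_inf_le_abs _ _ _

lemma ClosedIdeal.abs_mem (J : ClosedIdeal E) {a : E} (ha : a ∈ J.toSubmodule) :
    |a| ∈ J.toSubmodule := J.solid ha (by rw [abs_abs])

lemma ClosedIdeal.sup_sub_sup_mem (J : ClosedIdeal E) {a b c d : E}
    (h1 : a - c ∈ J.toSubmodule) (h2 : b - d ∈ J.toSubmodule) :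
    a ⊔ b - c ⊔ d ∈ J.toSubmodule := by
  refine J.solid (J.toSubmodule.add_mem (J.abs_mem h1) (J.abs_mem h2)) ?_
  rw [abs_of_nonneg (add_nonneg (abs_nonneg (a - c)) (abs_nonneg (b - d)))]
  exact abs_sup_sub_sup_le a b c d

lemma ClosedIdeal.inf_sub_inf_mem (J : ClosedIdeal E) {a b c d : E}
    (h1 : a - c ∈ J.toSubmodule) (h2 : b - d ∈ J.toSubmodule) :
    a ⊓ b - c ⊓ d ∈ J.toSubmodule := by
  refine J.solid (J.toSubmodule.add_mem (J.abs_mem h1) (J.abs_mem h2)) ?_
  rw [abs_of_nonneg (add_nonneg (abs_nonneg (a - c)) (abs_nonneg (b - d)))]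
  exact abs_inf_sub_inf_le a b c d

instance quotMax (J : ClosedIdeal E) : Max (E ⧸ J.toSubmodule) where
  max x y := Quotient.liftOn₂' x y (fun a b => Submodule.Quotient.mk (a ⊔ b)) (by
    intro a b c d hac hbd
    rw [Submodule.quotientRel_def] at hac hbd
    rw [Submodule.Quotient.eq]
    exact J.sup_sub_sup_mem hac hbd)

instance quotMin (J : ClosedIdeal E) : Min (E ⧸ J.toSubmodule) where
  min x y := Quotient.liftOn₂' x y (fun a b => Submodule.Quotient.mk (a ⊓ b)) (by
    intro a b c d hac hbd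
    rw [Submodule.quotientRel_def] at hac hbd
    rw [Submodule.Quotient.eq]
    exact J.inf_sub_inf_mem hac hbd)

lemma quot_mk_sup (J : ClosedIdeal E) (a b : E) :
    (Submodule.Quotient.mk (a ⊔ b) : E ⧸ J.toSubmodule) =
      Submodule.Quotient.mk a ⊔ Submodule.Quotient.mk b := rfl

lemma quot_mk_inf (J : ClosedIdeal E) (a b : E) :
    (Submodule.Quotient.mk (a ⊓ b) : E ⧸ J.toSubmodule) =
      Submodule.Quotient.mk a ⊓ Submodule.Quotient.mk b := rfl

/-- The lattice structure of the quotient `E ⧸ J`: `[a] ⊔ [b] = [a ⊔ b]`, `[a] ⊓ [b] = [a ⊓ b]`. -/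
instance quotLattice (J : ClosedIdeal E) : Lattice (E ⧸ J.toSubmodule) :=
  Lattice.mk'
    (by rintro ⟨a⟩ ⟨b⟩
        change (Submodule.Quotient.mk (a ⊔ b) : E ⧸ J.toSubmodule) = Submodule.Quotient.mk (b ⊔ a)
        rw [sup_comm])
    (by rintro ⟨a⟩ ⟨b⟩ ⟨c⟩
        change (Submodule.Quotient.mk (a ⊔ b ⊔ c) : E ⧸ J.toSubmodule) =
          Submodule.Quotient.mk (a ⊔ (b ⊔ c))
        rw [sup_assoc])
    (by rintro ⟨a⟩ ⟨b⟩
        change (Submodule.Quotient.mk (a ⊓ b) : E ⧸ J.toSubmodule) = Submodule.Quotient.mk (b ⊓ a)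
        rw [inf_comm])
    (by rintro ⟨a⟩ ⟨b⟩ ⟨c⟩
        change (Submodule.Quotient.mk (a ⊓ b ⊓ c) : E ⧸ J.toSubmodule) =
          Submodule.Quotient.mk (a ⊓ (b ⊓ c))
        rw [inf_assoc])
    (by rintro ⟨a⟩ ⟨b⟩
        change (Submodule.Quotient.mk (a ⊔ a ⊓ b) : E ⧸ J.toSubmodule) = Submodule.Quotient.mk a
        rw [sup_inf_self])
    (by rintro ⟨a⟩ ⟨b⟩
        change (Submodule.Quotient.mk (a ⊓ (a ⊔ b)) : E ⧸ J.toSubmodule) = Submodule.Quotient.mk a
        rw [inf_sup_self])

lemma quot_mk_sup' (J : ClosedIdeal E) (a b : E) :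
    (Submodule.Quotient.mk (a ⊔ b) : E ⧸ J.toSubmodule) =
      Submodule.Quotient.mk a ⊔ Submodule.Quotient.mk b := rfl

lemma quot_mk_abs (J : ClosedIdeal E) (a : E) :
    (Submodule.Quotient.mk |a| : E ⧸ J.toSubmodule) = |Submodule.Quotient.mk a| := rfl

lemma quot_le_iff (J : ClosedIdeal E) (a b : E) :
    (Submodule.Quotient.mk a : E ⧸ J.toSubmodule) ≤ Submodule.Quotient.mk b ↔
      ∃ j ∈ J.toSubmodule, a ≤ b + j := by
  constructor
  · intro h
    have h1 : (Submodule.Quotient.mk (a ⊔ b) : E ⧸ J.toSubmodule) = Submodule.Quotient.mk b := h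
    rw [Submodule.Quotient.eq] at h1
    exact ⟨_, h1, by rw [add_sub_cancel]; exact le_sup_left⟩
  · rintro ⟨j, hj, h⟩
    change (Submodule.Quotient.mk (a ⊔ b) : E ⧸ J.toSubmodule) = Submodule.Quotient.mk b
    rw [Submodule.Quotient.eq]
    have h2 : a ⊔ b ≤ b + |j| := sup_le (h.trans (by gcongr; exact le_abs_self j))
      (le_add_of_nonneg_right (abs_nonneg j))
    refine J.solid hj ?_
    rw [abs_of_nonneg (sub_nonneg.2 le_sup_right)]
    exact sub_le_iff_le_add'.2 h2

instance quotOrdered (J : ClosedIdeal E) : IsOrderedAddMonoid (E ⧸ J.toSubmodule) where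
  add_le_add_left := by
    rintro ⟨a⟩ ⟨b⟩ h ⟨c⟩
    have h1 := (quot_le_iff J a b).1 h
    obtain ⟨j, hj, h1⟩ := h1
    refine (quot_le_iff J (a + c) (b + c)).2 ⟨j, hj, ?_⟩
    calc a + c ≤ (b + j) + c := by gcongr
      _ = b + c + j := by abel

variable [HasSolidNorm E]

instance quotSolid (J : ClosedIdeal E) : HasSolidNorm (E ⧸ J.toSubmodule) where
  solid := by
    rintro ⟨x⟩ ⟨y⟩ h
    change ‖(Submodule.Quotient.mk x : E ⧸ J.toSubmodule)‖ ≤
      ‖(Submodule.Quotient.mk y : E ⧸ J.toSubmodule)‖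
    have h1 : (Submodule.Quotient.mk |x| : E ⧸ J.toSubmodule) ≤ Submodule.Quotient.mk |y| := h
    obtain ⟨j, hj, hxy⟩ := (quot_le_iff J _ _).1 h1
    apply le_of_forall_pos_lt_add
    intro ε hε
    obtain ⟨z, hz, hzn⟩ := Submodule.Quotient.norm_mk_lt
      (Submodule.Quotient.mk y : E ⧸ J.toSubmodule) hε
    have hk : z - y ∈ J.toSubmodule := (Submodule.Quotient.eq J.toSubmodule).1 hz
    -- truncate x at |z|
    set x' := (x ⊓ |z|) ⊔ (-|z|) with hx'
    have hx'1 : |x'| ≤ |z| := by
      rw [abs_le']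
      have : -|z| ≤ |z| := by
        have := abs_nonneg z
        exact (neg_nonpos.2 this).trans this
      constructor
      · exact sup_le inf_le_right this
      · rw [hx', neg_sup, neg_neg]
        exact inf_le_right
    have hb : |x| ≤ |z| + (|z - y| + |j|) := by
      calc |x| ≤ |y| + j := hxy
        _ ≤ (|z| + |z - y|) + |j| := by
            apply add_le_add
            · have : y = z - (z - y) := by abel
              calc |y| = |z - (z - y)| := by rw [← this]
                _ ≤ |z| + |z - y| := by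
                  rw [sub_eq_add_neg]
                  refine (abs_add_le _ _).trans ?_
                  rw [abs_neg]
            · exact le_abs_self j
        _ = |z| + (|z - y| + |j|) := by abel
    have hv : (0 : E) ≤ |z - y| + |j| := add_nonneg (abs_nonneg _) (abs_nonneg _)
    have hx'2 : |x - x'| ≤ |z - y| + |j| := by
      have hx1 : x ≤ |z| + (|z - y| + |j|) := (le_abs_self x).trans hb
      have hx2 : -x ≤ |z| + (|z - y| + |j|) := (neg_le_abs x).trans hb
      rw [abs_le']
      constructor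
      · -- x - x' ≤ v
        have : x ≤ x' + (|z - y| + |j|) := by
          have h3 : x ≤ (x ⊓ |z|) + (|z - y| + |j|) := by
            rw [inf_add]
            exact le_inf (le_add_of_nonneg_right hv) hx1
          exact h3.trans (by gcongr; exact le_sup_left)
        exact sub_le_iff_le_add'.2 this
      · have : x' ≤ x + (|z - y| + |j|) := by
          apply sup_le
          · exact inf_le_left.trans (le_add_of_nonneg_right hv)
          · have h4 : -|z| ≤ x + (|z - y| + |j|) := by
              have := neg_le_neg hx2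
              rw [neg_neg, neg_add] at this
              rw [← sub_le_iff_le_add]
              rwa [sub_eq_add_neg]
            exact h4
        rw [neg_sub]
        exact sub_le_iff_le_add'.2 this
    have hmem : x - x' ∈ J.toSubmodule := by
      refine J.solid (J.toSubmodule.add_mem (J.abs_mem hk) (J.abs_mem hj)) ?_
      rw [abs_of_nonneg hv]
      exact hx'2
    have hxx : (Submodule.Quotient.mk x : E ⧸ J.toSubmodule) = Submodule.Quotient.mk x' :=
      (Submodule.Quotient.eq _).2 hmem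
    rw [hxx]
    calc ‖(Submodule.Quotient.mk x' : E ⧸ J.toSubmodule)‖ ≤ ‖x'‖ :=
          Submodule.Quotient.norm_mk_le _ _
      _ ≤ ‖z‖ := HasSolidNorm.solid hx'1
      _ < _ := hzn

end Quotient

/-! ### Lattice homomorphisms -/

/-- A bounded linear map `T` between Banach lattices is a lattice homomorphism if `T|x| = |Tx|`. -/
def IsLatticeHom {E : Type*} {F : Type*} [NormedAddCommGroup E] [Lattice E] [NormedSpace ℝ E]
    [NormedAddCommGroup F] [Lattice F] [NormedSpace ℝ F] (T : E →L[ℝ] F) : Prop :=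
  ∀ x, T |x| = |T x|

/-! ### The definitions of the problem -/

/-- `E` is a (real) Banach lattice: complete, with solid norm, the order being compatible with
addition and with multiplication by nonnegative scalars. -/
class IsBanachLattice (E : Type*) [NormedAddCommGroup E] [Lattice E] [NormedSpace ℝ E] : Prop
    extends HasSolidNorm E, IsOrderedAddMonoid E, IsOrderedModule ℝ E, CompleteSpace E

/-- `A` is semiprojective: given a separable Banach lattice `B`, an increasing sequence `In` of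
closed ideals of `B` with `I = closure (⋃ n, In n)`, and a lattice homomorphism `φ : A → B/I` of norm
at most `1`, there is an index `n` such that for each `ε > 0` some lattice homomorphism
`ψ : A → B/In n` satisfies `π_n ∘ ψ = φ` and `‖ψ‖ ≤ 1 + ε`. Here `π_n : B/In n → B/I` is the
canonical surjection `Submodule.factor (hle n)`. -/
def Semiprojective (A : Type u) [NormedAddCommGroup A] [Lattice A] [NormedSpace ℝ A] : Prop :=
  ∀ (B : Type v) [NormedAddCommGroup B] [Lattice B] [NormedSpace ℝ B] [IsBanachLattice B]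
    [SeparableSpace B] (I : ClosedIdeal B) (In : ℕ → ClosedIdeal B)
    (hle : ∀ n, (In n).toSubmodule ≤ I.toSubmodule),
    Monotone (fun n => (In n).toSubmodule) →
    (I.toSubmodule : Set B) = closure (⋃ n, ((In n).toSubmodule : Set B)) →
    ∀ φ : A →L[ℝ] (B ⧸ I.toSubmodule), IsLatticeHom φ → ‖φ‖ ≤ 1 →
    ∃ n : ℕ, ∀ ε : ℝ, 0 < ε → ∃ ψ : A →L[ℝ] (B ⧸ (In n).toSubmodule),
      IsLatticeHom ψ ∧ (∀ a, Submodule.factor (hle n) (ψ a) = φ a) ∧ ‖ψ‖ ≤ 1 + ε

/-- `A` is `1⁺`-projective: for every Banach lattice `X`, closed ideal `J` of `X`, lattice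
homomorphism `T : A → X/J` and `ε > 0` there is a lattice homomorphism `T' : A → X` lifting `T`
with `‖T'‖ ≤ (1 + ε) ‖T‖`. -/
def OnePlusProjective (A : Type u) [NormedAddCommGroup A] [Lattice A] [NormedSpace ℝ A] : Prop :=
  ∀ (X : Type v) [NormedAddCommGroup X] [Lattice X] [NormedSpace ℝ X] [IsBanachLattice X]
    (J : ClosedIdeal X) (T : A →L[ℝ] (X ⧸ J.toSubmodule)), IsLatticeHom T →
    ∀ ε : ℝ, 0 < ε → ∃ T' : A →L[ℝ] X,
      IsLatticeHom T' ∧ (∀ a, (Submodule.Quotient.mk (T' a) : X ⧸ J.toSubmodule) = T a) ∧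
      ‖T'‖ ≤ (1 + ε) * ‖T‖

/-- The quotient of a Banach lattice by a closed ideal is a Banach lattice. -/
instance quotBanach {E : Type u} [NormedAddCommGroup E] [Lattice E] [NormedSpace ℝ E]
    [IsBanachLattice E] (J : ClosedIdeal E) : IsBanachLattice (E ⧸ J.toSubmodule) where
  smul_le_smul_of_nonneg_left := by
    rintro r hr ⟨a⟩ ⟨b⟩ h
    obtain ⟨j, hj, h1⟩ := (quot_le_iff J a b).1 h
    refine (quot_le_iff J (r • a) (r • b)).2 ⟨r • j, J.toSubmodule.smul_mem r hj, ?_⟩
    rw [← smul_add]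
    exact smul_le_smul_of_nonneg_left h1 hr
  smul_le_smul_of_nonneg_right := by
    rintro ⟨a⟩ h r s hrs
    obtain ⟨j, hj, h1⟩ := (quot_le_iff J 0 a).1 h
    refine (quot_le_iff J (r • a) (s • a)).2 ⟨(s - r) • j, J.toSubmodule.smul_mem _ hj, ?_⟩
    have h2 : 0 ≤ (s - r) • (a + j) := smul_nonneg (sub_nonneg.2 hrs) h1
    have h3 : s • a + (s - r) • j = r • a + (s - r) • (a + j) := by
      rw [smul_add, sub_smul, sub_smul]; abel
    rw [h3]
    exact le_add_of_nonneg_right h2

end Pool.Agent.H45.BanachLattice
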