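import Pool.Agent.H45.BanachLattice.Defs

/-!
# Semiprojective separable Banach lattices are `1⁺`-projective: the proof

Idea of the proof. Let `A` be separable and semiprojective, `J` a closed ideal of a Banach lattice
`X` and `T : A → X/J` a contractive lattice homomorphism. A closing-off argument
(`separable_reduction`) reduces to separable `X`, and extends the lifting property of `A` to
nonseparable targets. Choose `e ∈ J`, `e ≥ 0` such that `‖(|x| - n e)⁺‖ → ‖x + J‖` for all `x`.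
The maps

  `F_n (x) = (1/n) ∑_{i<n} (x⁺ - 2^i n e)⁺ - (1/n) ∑_{i<n} (x⁻ - 2^i n e)⁺`

are asymptotically linear lattice homomorphisms (the defect of additivity telescopes), they satisfy
`F_n (x) - x ∈ J` and `‖F_n (x)‖ → ‖x + J‖`, `F_n (j) → 0` for `j ∈ J`. Hence `a ↦ (F_n (s a))_n`,
with `s a` any lift of `T a`, induces a contractive lattice homomorphism from `A` into the quotient
of the bounded sequences in `X` by the ideal of null sequences in `J`. This ideal is the closure of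
the union of the ideals of sequences in `J` supported in `[0, n)`. A lift modulo such an ideal,
evaluated at the coordinate `n`, is a lift of `T` with the same norm bound.
-/

open Set Filter Topology TopologicalSpace

set_option linter.unusedSectionVars false

namespace Pool.Agent.H45.BanachLattice

universe u v w



section Trunc

variable {E : Type*} [NormedAddCommGroup E] [Lattice E] [NormedSpace ℝ E]
  [HasSolidNorm E] [IsOrderedAddMonoid E] [IsOrderedModule ℝ E]

/-- soft truncation `(x - c)⁺` -/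
def trunc (c x : E) : E := (x - c) ⊔ 0

lemma trunc_nonneg (c x : E) : 0 ≤ trunc c x := le_sup_right

lemma trunc_le_self {c x : E} (hc : 0 ≤ c) (hx : 0 ≤ x) : trunc c x ≤ x :=
  sup_le (sub_le_self x hc) hx

lemma trunc_mono {c x y : E} (h : x ≤ y) : trunc c x ≤ trunc c y :=
  sup_le_sup_right (sub_le_sub_right h c) 0

lemma trunc_anti {c d x : E} (h : c ≤ d) : trunc d x ≤ trunc c x :=
  sup_le_sup_right (sub_le_sub_left h x) 0

lemma trunc_superadd {c x y : E} (hc : 0 ≤ c) (hx : 0 ≤ x) (hy : 0 ≤ y) :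
    trunc c x + trunc c y ≤ trunc c (x + y) := by
  unfold trunc
  rw [sup_add, add_sup, add_sup]
  simp only [add_zero, zero_add]
  apply sup_le
  · apply sup_le
    · refine le_trans ?_ le_sup_left
      have : x - c + (y - c) = (x + y - c) - c := by abel
      rw [this]
      exact sub_le_self _ hc
    · refine le_trans ?_ le_sup_left
      have : x + y - c = (x - c) + y := by abel
      rw [this]
      exact le_add_of_nonneg_right hy
  · apply sup_le
    · refine le_trans ?_ le_sup_left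
      have : x + y - c = (y - c) + x := by abel
      rw [this]
      exact le_add_of_nonneg_right hx
    · exact le_sup_right

lemma trunc_subadd (c x y : E) : trunc (c + c) (x + y) ≤ trunc c x + trunc c y := by
  unfold trunc
  apply sup_le
  · have : x + y - (c + c) = (x - c) + (y - c) := by abel
    rw [this]
    exact add_le_add le_sup_left le_sup_left
  · exact add_nonneg le_sup_right le_sup_right

/-- averaged truncations -/
noncomputable def G (e : E) (n : ℕ) (x : E) : E :=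
  ((n : ℝ)⁻¹) • ∑ i ∈ Finset.range n, trunc ((2 ^ i * n) • e) x

lemma G_nonneg {e : E} (n : ℕ) (x : E) : 0 ≤ G e n x := by
  unfold G
  apply smul_nonneg (by positivity)
  exact Finset.sum_nonneg fun i _ => trunc_nonneg _ _

lemma nsmul_nonneg' {e : E} (he : 0 ≤ e) (k : ℕ) : 0 ≤ k • e := nsmul_nonneg he k

lemma G_mono {e : E} (n : ℕ) {x y : E} (h : x ≤ y) : G e n x ≤ G e n y := by
  unfold G
  apply smul_le_smul_of_nonneg_left _ (by positivity)
  exact Finset.sum_le_sum fun i _ => trunc_mono h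

lemma G_le_trunc {e : E} (he : 0 ≤ e) {n : ℕ} (hn : 0 < n) (x : E) :
    G e n x ≤ trunc (n • e) x := by
  unfold G
  have h1 : ∑ i ∈ Finset.range n, trunc ((2 ^ i * n) • e) x ≤
      ∑ i ∈ Finset.range n, trunc (n • e) x := by
    apply Finset.sum_le_sum
    intro i _
    apply trunc_anti
    apply nsmul_le_nsmul_left he
    exact Nat.le_mul_of_pos_left n (by positivity)
  calc ((n : ℝ)⁻¹) • ∑ i ∈ Finset.range n, trunc ((2 ^ i * n) • e) x
      ≤ ((n : ℝ)⁻¹) • ∑ i ∈ Finset.range n, trunc (n • e) x :=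
        smul_le_smul_of_nonneg_left h1 (by positivity)
    _ = trunc (n • e) x := by
        rw [Finset.sum_const, Finset.card_range, ← Nat.cast_smul_eq_nsmul ℝ, smul_smul,
          inv_mul_cancel₀ (by positivity), one_smul]

lemma G_le_self {e : E} (he : 0 ≤ e) {n : ℕ} (hn : 0 < n) {x : E} (hx : 0 ≤ x) : G e n x ≤ x :=
  (G_le_trunc he hn x).trans (trunc_le_self (nsmul_nonneg he n) hx)

lemma G_superadd {e : E} (he : 0 ≤ e) (n : ℕ) {x y : E} (hx : 0 ≤ x) (hy : 0 ≤ y) :
    G e n x + G e n y ≤ G e n (x + y) := by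
  unfold G
  rw [← smul_add, ← Finset.sum_add_distrib]
  apply smul_le_smul_of_nonneg_left _ (by positivity)
  exact Finset.sum_le_sum fun i _ => trunc_superadd (nsmul_nonneg he _) hx hy

lemma G_add_le {e : E} (he : 0 ≤ e) {n : ℕ} {x y : E} (hx : 0 ≤ x) (hy : 0 ≤ y) :
    G e n (x + y) - G e n x - G e n y ≤ ((n : ℝ)⁻¹) • (x + y) := by
  unfold G
  rw [← smul_sub, ← smul_sub, ← Finset.sum_sub_distrib, ← Finset.sum_sub_distrib]
  apply smul_le_smul_of_nonneg_left _ (by positivity)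
  have h1 : ∀ i ∈ Finset.range n,
      trunc ((2 ^ i * n) • e) (x + y) - trunc ((2 ^ i * n) • e) x - trunc ((2 ^ i * n) • e) y ≤
      trunc ((2 ^ i * n) • e) (x + y) - trunc ((2 ^ (i + 1) * n) • e) (x + y) := by
    intro i _
    have h2 := trunc_subadd ((2 ^ i * n) • e) x y
    have h3 : (2 ^ i * n) • e + (2 ^ i * n) • e = (2 ^ (i + 1) * n) • e := by
      rw [← add_nsmul]; congr 1; ring
    rw [h3] at h2
    rw [sub_sub]
    exact sub_le_sub_left h2 _
  refine (Finset.sum_le_sum h1).trans ?_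
  rw [Finset.sum_range_sub' (fun i => trunc ((2 ^ i * n) • e) (x + y))]
  refine (sub_le_self _ (trunc_nonneg _ _)).trans ?_
  exact trunc_le_self (nsmul_nonneg he _) (add_nonneg hx hy)

lemma norm_le_of_nonneg_of_le {x y : E} (hx : 0 ≤ x) (h : x ≤ y) : ‖x‖ ≤ ‖y‖ := by
  apply norm_le_norm_of_abs_le_abs
  rw [abs_of_nonneg hx]
  exact h.trans (le_abs_self y)

lemma norm_G_add {e : E} (he : 0 ≤ e) {n : ℕ} {x y : E} (hx : 0 ≤ x) (hy : 0 ≤ y) :
    ‖G e n (x + y) - G e n x - G e n y‖ ≤ (n : ℝ)⁻¹ * ‖x + y‖ := by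
  have h1 : 0 ≤ G e n (x + y) - G e n x - G e n y := by
    rw [sub_sub, sub_nonneg]
    exact G_superadd he n hx hy
  refine (norm_le_of_nonneg_of_le h1 (G_add_le he hx hy)).trans ?_
  rw [norm_smul, Real.norm_eq_abs, abs_of_nonneg (by positivity)]

/-- the asymptotic lattice homomorphisms -/
noncomputable def F (e : E) (n : ℕ) (x : E) : E := G e n x⁺ - G e n x⁻

lemma norm_posPart_le (x : E) : ‖x⁺‖ ≤ ‖x‖ := by
  apply norm_le_norm_of_abs_le_abs
  rw [abs_of_nonneg (posPart_nonneg x)]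
  exact sup_le (le_abs_self x) (abs_nonneg x)

lemma norm_negPart_le (x : E) : ‖x⁻‖ ≤ ‖x‖ := by
  apply norm_le_norm_of_abs_le_abs
  rw [abs_of_nonneg (negPart_nonneg x)]
  exact sup_le (neg_le_abs x) (abs_nonneg x)

lemma F_add {e : E} (he : 0 ≤ e) {n : ℕ} (x y : E) :
    ‖F e n (x + y) - F e n x - F e n y‖ ≤ (n : ℝ)⁻¹ * (6 * (‖x‖ + ‖y‖)) := by
  set z := x + y with hz
  have hw : z⁺ + (x⁻ + y⁻) = z⁻ + (x⁺ + y⁺) := by
    have h1 := posPart_sub_negPart z
    have h2 := posPart_sub_negPart x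
    have h3 := posPart_sub_negPart y
    have h4 : z⁺ - z⁻ = (x⁺ - x⁻) + (y⁺ - y⁻) := by rw [h1, h2, h3]
    have h5 : z⁺ + (x⁻ + y⁻) - (z⁻ + (x⁺ + y⁺)) = (z⁺ - z⁻) - ((x⁺ - x⁻) + (y⁺ - y⁻)) := by abel
    rw [← sub_eq_zero, h5, h4, sub_self]
  have e1 := norm_G_add (n := n) he (posPart_nonneg z) (add_nonneg (negPart_nonneg x) (negPart_nonneg y))
  have e2 := norm_G_add (n := n) he (negPart_nonneg x) (negPart_nonneg y)
  have e3 := norm_G_add (n := n) he (negPart_nonneg z) (add_nonneg (posPart_nonneg x) (posPart_nonneg y))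
  have e4 := norm_G_add (n := n) he (posPart_nonneg x) (posPart_nonneg y)
  have hF : F e n z - F e n x - F e n y =
      (G e n (z⁻ + (x⁺ + y⁺)) - G e n z⁻ - G e n (x⁺ + y⁺))
      - (G e n (z⁺ + (x⁻ + y⁻)) - G e n z⁺ - G e n (x⁻ + y⁻))
      + (G e n (x⁺ + y⁺) - G e n x⁺ - G e n y⁺)
      - (G e n (x⁻ + y⁻) - G e n x⁻ - G e n y⁻) := by
    unfold F
    rw [hw]
    abel
  rw [hF]
  have n1 : ‖z⁺ + (x⁻ + y⁻)‖ ≤ 2 * (‖x‖ + ‖y‖) := by
    have := norm_posPart_le z
    have := norm_negPart_le x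
    have := norm_negPart_le y
    have h1 := norm_add_le z⁺ (x⁻ + y⁻)
    have h2 := norm_add_le x⁻ y⁻
    have h3 : ‖z‖ ≤ ‖x‖ + ‖y‖ := norm_add_le x y
    linarith
  have n3 : ‖z⁻ + (x⁺ + y⁺)‖ ≤ 2 * (‖x‖ + ‖y‖) := by rw [← hw]; exact n1
  have n2 : ‖x⁻ + y⁻‖ ≤ ‖x‖ + ‖y‖ :=
    (norm_add_le _ _).trans (add_le_add (norm_negPart_le x) (norm_negPart_le y))
  have n4 : ‖x⁺ + y⁺‖ ≤ ‖x‖ + ‖y‖ :=
    (norm_add_le _ _).trans (add_le_add (norm_posPart_le x) (norm_posPart_le y))
  have hn : (0:ℝ) ≤ (n : ℝ)⁻¹ := by positivity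
  have t1 := norm_sub_le
    ((G e n (z⁻ + (x⁺ + y⁺)) - G e n z⁻ - G e n (x⁺ + y⁺))
      - (G e n (z⁺ + (x⁻ + y⁻)) - G e n z⁺ - G e n (x⁻ + y⁻))
      + (G e n (x⁺ + y⁺) - G e n x⁺ - G e n y⁺))
    (G e n (x⁻ + y⁻) - G e n x⁻ - G e n y⁻)
  have t2 := norm_add_le
    ((G e n (z⁻ + (x⁺ + y⁺)) - G e n z⁻ - G e n (x⁺ + y⁺))
      - (G e n (z⁺ + (x⁻ + y⁻)) - G e n z⁺ - G e n (x⁻ + y⁻)))
    (G e n (x⁺ + y⁺) - G e n x⁺ - G e n y⁺)
  have t3 := norm_sub_le
    (G e n (z⁻ + (x⁺ + y⁺)) - G e n z⁻ - G e n (x⁺ + y⁺))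
    (G e n (z⁺ + (x⁻ + y⁻)) - G e n z⁺ - G e n (x⁻ + y⁻))
  have m1 := mul_le_mul_of_nonneg_left n1 hn
  have m2 := mul_le_mul_of_nonneg_left n2 hn
  have m3 := mul_le_mul_of_nonneg_left n3 hn
  have m4 := mul_le_mul_of_nonneg_left n4 hn
  linarith

lemma G_zero {e : E} (he : 0 ≤ e) (n : ℕ) : G e n 0 = 0 := by
  unfold G
  have : ∀ i ∈ Finset.range n, trunc ((2 ^ i * n) • e) (0 : E) = 0 := by
    intro i _
    unfold trunc
    rw [zero_sub]
    exact sup_eq_right.2 (neg_nonpos.2 (nsmul_nonneg he _))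
  rw [Finset.sum_congr rfl this]
  simp

lemma abs_F_le {e : E} (he : 0 ≤ e) {n : ℕ} (hn : 0 < n) (x : E) :
    |F e n x| ≤ trunc (n • e) |x| := by
  have h1 : |F e n x| ≤ G e n x⁺ + G e n x⁻ := by
    unfold F
    rw [abs_le']
    constructor
    · rw [sub_eq_add_neg]
      gcongr
      exact (neg_nonpos.2 (G_nonneg n _)).trans (G_nonneg n _)
    · rw [neg_sub, sub_eq_add_neg, add_comm]
      gcongr
      exact (neg_nonpos.2 (G_nonneg n _)).trans (G_nonneg n _)
  refine h1.trans ((G_superadd he n (posPart_nonneg x) (negPart_nonneg x)).trans ?_)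
  rw [posPart_add_negPart]
  exact G_le_trunc he hn _

lemma norm_F_le_trunc {e : E} (he : 0 ≤ e) {n : ℕ} (hn : 0 < n) (x : E) :
    ‖F e n x‖ ≤ ‖trunc (n • e) |x|‖ := by
  apply norm_le_norm_of_abs_le_abs
  rw [abs_of_nonneg (trunc_nonneg _ _)]
  exact abs_F_le he hn x

lemma norm_F_le {e : E} (he : 0 ≤ e) {n : ℕ} (hn : 0 < n) (x : E) : ‖F e n x‖ ≤ ‖x‖ := by
  refine (norm_F_le_trunc he hn x).trans ?_
  rw [← norm_abs_eq_norm x]
  exact norm_le_of_nonneg_of_le (trunc_nonneg _ _)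
    (trunc_le_self (nsmul_nonneg he n) (abs_nonneg x))

lemma F_abs {e : E} (he : 0 ≤ e) {n : ℕ} (hn : 0 < n) (x : E) :
    ‖F e n |x| - |F e n x|‖ ≤ (n : ℝ)⁻¹ * ‖x‖ := by
  have h1 : |F e n x| = G e n x⁺ + G e n x⁻ := by
    have hdisj : G e n x⁺ ⊓ G e n x⁻ = 0 := by
      apply le_antisymm
      · have h2 : G e n x⁺ ⊓ G e n x⁻ ≤ x⁺ ⊓ x⁻ :=
          inf_le_inf (G_le_self he hn (posPart_nonneg x)) (G_le_self he hn (negPart_nonneg x))
        rwa [posPart_inf_negPart_eq_zero] at h2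
      · exact le_inf (G_nonneg n _) (G_nonneg n _)
    unfold F
    have h3 := sup_sub_inf_eq_abs_sub (G e n x⁺) (G e n x⁻)
    rw [abs_sub_comm, ← h3, hdisj, sub_zero]
    have h4 := inf_add_sup (G e n x⁺) (G e n x⁻)
    rw [hdisj, zero_add] at h4
    exact h4
  have h2 : F e n |x| = G e n |x| := by
    unfold F
    rw [posPart_eq_self.2 (abs_nonneg x), negPart_eq_zero.2 (abs_nonneg x), G_zero he, sub_zero]
  have h3 := norm_G_add (n := n) he (posPart_nonneg x) (negPart_nonneg x)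
  rw [posPart_add_negPart, norm_abs_eq_norm] at h3
  rw [h1, h2, ← sub_sub]
  exact h3

end Trunc


/-! ### Closing off a countable set -/

lemma exists_countable_closed {E : Type*} {ι κ : Type*} [Countable ι] [Countable κ]
    (u : ι → E → E) (b : κ → E → E → E) (x0 : E) :
    ∃ D : Set E, D.Countable ∧ x0 ∈ D ∧ (∀ i, ∀ x ∈ D, u i x ∈ D) ∧
      (∀ k, ∀ x ∈ D, ∀ y ∈ D, b k x y ∈ D) := by
  let step : Set E → Set E := fun D =>
    D ∪ (⋃ i, u i '' D) ∪ (⋃ k, Set.image2 (b k) D D)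
  let Dn : ℕ → Set E := fun n => Nat.rec {x0} (fun _ D => step D) n
  have hsucc : ∀ n, Dn (n + 1) = step (Dn n) := fun n => rfl
  have hmono1 : ∀ n, Dn n ⊆ Dn (n + 1) := by
    intro n x hx
    rw [hsucc]
    exact Or.inl (Or.inl hx)
  have hmono : Monotone Dn := monotone_nat_of_le_succ hmono1
  have hcount : ∀ n, (Dn n).Countable := by
    intro n
    induction n with
    | zero => exact countable_singleton x0
    | succ n ih =>
      rw [hsucc]
      refine (ih.union ?_).union ?_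
      · exact countable_iUnion fun i => ih.image _
      · exact countable_iUnion fun k => ih.image2 ih _
  refine ⟨⋃ n, Dn n, countable_iUnion hcount, mem_iUnion.2 ⟨0, rfl⟩, ?_, ?_⟩
  · intro i x hx
    obtain ⟨n, hn⟩ := mem_iUnion.1 hx
    refine mem_iUnion.2 ⟨n + 1, ?_⟩
    rw [hsucc]
    exact Or.inl (Or.inr (mem_iUnion.2 ⟨i, x, hn, rfl⟩))
  · intro k x hx y hy
    obtain ⟨n, hn⟩ := mem_iUnion.1 hx
    obtain ⟨m, hm⟩ := mem_iUnion.1 hy
    refine mem_iUnion.2 ⟨max n m + 1, ?_⟩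
    rw [hsucc]
    exact Or.inr (mem_iUnion.2 ⟨k, x, hmono (le_max_left n m) hn, y,
      hmono (le_max_right n m) hm, rfl⟩)

/-! ### Closed sublattices -/

/-- A closed vector sublattice -/
structure ClosedSublattice (E : Type u) [NormedAddCommGroup E] [Lattice E] [NormedSpace ℝ E]
    extends Submodule ℝ E where
  isClosed' : IsClosed carrier
  sup_mem' : ∀ {a b : E}, a ∈ carrier → b ∈ carrier → a ⊔ b ∈ carrier
  inf_mem' : ∀ {a b : E}, a ∈ carrier → b ∈ carrier → a ⊓ b ∈ carrier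

section Sub

variable {E : Type u} [NormedAddCommGroup E] [Lattice E] [NormedSpace ℝ E]

instance subLattice (S : ClosedSublattice E) : Lattice S.toSubmodule :=
  Subtype.lattice (P := fun x => x ∈ S.toSubmodule) (fun _ _ hx hy => S.sup_mem' hx hy)
    (fun _ _ hx hy => S.inf_mem' hx hy)

lemma sub_coe_abs (S : ClosedSublattice E) (x : S.toSubmodule) : ((|x| : S.toSubmodule) : E) = |(x : E)| :=
  rfl

lemma sub_le_iff (S : ClosedSublattice E) (x y : S.toSubmodule) : x ≤ y ↔ (x : E) ≤ y := Iff.rfl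

variable [HasSolidNorm E] [IsOrderedAddMonoid E] [IsOrderedModule ℝ E] [CompleteSpace E]

instance (S : ClosedSublattice E) : IsOrderedAddMonoid S.toSubmodule where
  add_le_add_left := by
    intro a b h c
    rw [sub_le_iff] at h ⊢
    simp only [Submodule.coe_add]
    gcongr

instance (S : ClosedSublattice E) : HasSolidNorm S.toSubmodule where
  solid := by
    intro x y h
    rw [sub_le_iff, sub_coe_abs, sub_coe_abs] at h
    exact HasSolidNorm.solid (α := E) h

instance (S : ClosedSublattice E) : IsOrderedModule ℝ S.toSubmodule where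
  smul_le_smul_of_nonneg_left := by
    intro r hr x y h
    rw [sub_le_iff] at h ⊢
    exact smul_le_smul_of_nonneg_left h hr
  smul_le_smul_of_nonneg_right := by
    intro x hx r s h
    rw [sub_le_iff] at hx ⊢
    exact smul_le_smul_of_nonneg_right h hx

instance (S : ClosedSublattice E) : CompleteSpace S.toSubmodule :=
  S.isClosed'.completeSpace_coe

/-- the ideal `J ∩ S` of the closed sublattice `S` -/
noncomputable def ClosedIdeal.comap (J : ClosedIdeal E) (S : ClosedSublattice E) :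
    ClosedIdeal S.toSubmodule where
  toSubmodule := J.toSubmodule.comap S.toSubmodule.subtype
  isClosed' := J.isClosed'.preimage continuous_subtype_val
  solid' := by
    intro a b ha h
    rw [sub_le_iff, sub_coe_abs, sub_coe_abs] at h
    exact J.solid' (a := (a : E)) ha h

/-- the canonical map `S/(J ∩ S) → E/J` -/
noncomputable def kappa (J : ClosedIdeal E) (S : ClosedSublattice E) :
    (S.toSubmodule ⧸ (J.comap S).toSubmodule) →L[ℝ] (E ⧸ J.toSubmodule) :=
  LinearMap.mkContinuous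
    (Submodule.mapQ (J.comap S).toSubmodule J.toSubmodule S.toSubmodule.subtype (le_refl _)) 1
    (by
      intro x
      rw [one_mul]
      apply le_of_forall_pos_lt_add
      intro ε hε
      obtain ⟨z, hz, hzn⟩ := Submodule.Quotient.norm_mk_lt x hε
      rw [← hz]
      rw [← hz] at hzn
      refine lt_of_le_of_lt ?_ hzn
      have : (Submodule.mapQ (J.comap S).toSubmodule J.toSubmodule S.toSubmodule.subtype
        (le_refl _)) (Submodule.Quotient.mk z) = Submodule.Quotient.mk (z : E) := rfl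
      rw [this]
      exact Submodule.Quotient.norm_mk_le _ _)

lemma kappa_mk (J : ClosedIdeal E) (S : ClosedSublattice E) (x : S.toSubmodule) :
    kappa J S (Submodule.Quotient.mk x) = Submodule.Quotient.mk (x : E) := rfl

lemma norm_kappa_le (J : ClosedIdeal E) (S : ClosedSublattice E) : ‖kappa J S‖ ≤ 1 :=
  LinearMap.mkContinuous_norm_le _ zero_le_one _

lemma kappa_abs (J : ClosedIdeal E) (S : ClosedSublattice E)
    (x : S.toSubmodule ⧸ (J.comap S).toSubmodule) : kappa J S |x| = |kappa J S x| := by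
  obtain ⟨x, rfl⟩ := Submodule.Quotient.mk_surjective _ x
  rw [← quot_mk_abs, kappa_mk, kappa_mk, ← quot_mk_abs, sub_coe_abs]

end Sub


/-! ### The separable reduction -/

section Reduction

variable {A : Type u} [NormedAddCommGroup A] [NormedSpace ℝ A] [SeparableSpace A]
variable {E : Type v} [NormedAddCommGroup E] [Lattice E] [NormedSpace ℝ E]
variable [HasSolidNorm E] [IsOrderedAddMonoid E] [IsOrderedModule ℝ E] [CompleteSpace E]

lemma exists_lift_near (J : ClosedIdeal E) (q : E ⧸ J.toSubmodule) (x : E) {δ : ℝ} (hδ : 0 < δ) :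
    ∃ y : E, (Submodule.Quotient.mk y : E ⧸ J.toSubmodule) = q ∧
      ‖x - y‖ ≤ ‖(Submodule.Quotient.mk x : E ⧸ J.toSubmodule) - q‖ + δ := by
  obtain ⟨z, hz, hzn⟩ := Submodule.Quotient.norm_mk_lt
    ((Submodule.Quotient.mk x : E ⧸ J.toSubmodule) - q) hδ
  refine ⟨x - z, ?_, ?_⟩
  · rw [Submodule.Quotient.mk_sub, hz]; abel
  · have : x - (x - z) = z := by abel
    rw [this]; exact hzn.le

lemma exists_ideal_near (I : ClosedIdeal E) (In : ℕ → ClosedIdeal E)
    (hI : (I.toSubmodule : Set E) = closure (⋃ n, ((In n).toSubmodule : Set E)))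
    (x : E) {δ : ℝ} (hδ : 0 < δ) :
    ∃ y : E, (∃ n, y ∈ (In n).toSubmodule) ∧
      ‖x - y‖ ≤ ‖(Submodule.Quotient.mk x : E ⧸ I.toSubmodule)‖ + δ := by
  obtain ⟨z, hz, hzn⟩ := Submodule.Quotient.norm_mk_lt
    (Submodule.Quotient.mk x : E ⧸ I.toSubmodule) (half_pos hδ)
  have h1 : x - z ∈ I.toSubmodule := (Submodule.Quotient.eq _).1 hz.symm
  have h2 : x - z ∈ closure (⋃ n, ((In n).toSubmodule : Set E)) := by
    rw [← hI]; exact h1
  obtain ⟨y, hy, hyd⟩ := Metric.mem_closure_iff.1 h2 (δ/2) (half_pos hδ)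
  obtain ⟨n, hn⟩ := mem_iUnion.1 hy
  refine ⟨y, ⟨n, hn⟩, ?_⟩
  have h3 : x - y = z + (x - z - y) := by abel
  rw [h3]
  rw [dist_eq_norm] at hyd
  have := norm_add_le z (x - z - y)
  linarith

theorem separable_reduction (I : ClosedIdeal E) (In : ℕ → ClosedIdeal E)
    (hle : ∀ n, (In n).toSubmodule ≤ I.toSubmodule)
    (hI : (I.toSubmodule : Set E) = closure (⋃ n, ((In n).toSubmodule : Set E)))
    (φ : A →L[ℝ] E ⧸ I.toSubmodule) :
    ∃ S : ClosedSublattice E, SeparableSpace S.toSubmodule ∧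
      (((I.comap S).toSubmodule : Set S.toSubmodule) =
        closure (⋃ n, (((In n).comap S).toSubmodule : Set S.toSubmodule))) ∧
      (∀ x : S.toSubmodule, ‖(Submodule.Quotient.mk x : S.toSubmodule ⧸ (I.comap S).toSubmodule)‖
        = ‖(Submodule.Quotient.mk (x : E) : E ⧸ I.toSubmodule)‖) ∧
      (∀ a : A, ∃ x : S.toSubmodule, φ a = Submodule.Quotient.mk (x : E)) := by
  classical
  obtain ⟨d, hd⟩ := exists_dense_seq A
  have hpow : ∀ m : ℕ, (0:ℝ) < (1/2) ^ m := fun m => by positivity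
  choose h hh1 hh2 using fun (p : ℕ × ℕ) (x : E) =>
    exists_lift_near I (φ (d p.1)) x (hpow p.2)
  choose g hg1 hg2 using fun (m : ℕ) (x : E) => exists_ideal_near I In hI x (hpow m)
  obtain ⟨D, hDc, hD0, hDu, hDb⟩ := exists_countable_closed
    (ι := ℚ ⊕ (ℕ × ℕ) ⊕ ℕ) (κ := Fin 3)
    (fun i x => match i with
      | Sum.inl q => (q : ℝ) • x
      | Sum.inr (Sum.inl p) => h p x
      | Sum.inr (Sum.inr m) => g m x)
    (fun k x y => match k with
      | 0 => x + y
      | 1 => x ⊔ y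
      | 2 => x ⊓ y) (0 : E)
  have hDq : ∀ (q : ℚ), ∀ x ∈ D, (q : ℝ) • x ∈ D := fun q x hx => hDu (Sum.inl q) x hx
  have hDh : ∀ (p : ℕ × ℕ), ∀ x ∈ D, h p x ∈ D := fun p x hx => hDu (Sum.inr (Sum.inl p)) x hx
  have hDg : ∀ (m : ℕ), ∀ x ∈ D, g m x ∈ D := fun m x hx => hDu (Sum.inr (Sum.inr m)) x hx
  have hDadd : ∀ x ∈ D, ∀ y ∈ D, x + y ∈ D := fun x hx y hy => hDb 0 x hx y hy
  have hDsup : ∀ x ∈ D, ∀ y ∈ D, x ⊔ y ∈ D := fun x hx y hy => hDb 1 x hx y hy
  have hDinf : ∀ x ∈ D, ∀ y ∈ D, x ⊓ y ∈ D := fun x hx y hy => hDb 2 x hx y hy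
  obtain ⟨S, hS⟩ : ∃ S : ClosedSublattice E, (S.toSubmodule : Set E) = closure D := ⟨
    { carrier := closure D
      add_mem' := fun {a b} ha hb =>
        map_mem_closure₂ continuous_add ha hb hDadd
      zero_mem' := subset_closure hD0
      smul_mem' := by
        intro r x hx
        have hr : r ∈ closure (range (fun q : ℚ => (q : ℝ))) :=
          Rat.denseRange_cast r
        refine map_mem_closure₂ (f := fun (r : ℝ) (x : E) => r • x) continuous_smul hr hx ?_
        rintro _ ⟨q, rfl⟩ x hx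
        exact hDq q x hx
      isClosed' := isClosed_closure
      sup_mem' := fun {a b} ha hb => map_mem_closure₂ continuous_sup ha hb hDsup
      inf_mem' := fun {a b} ha hb => map_mem_closure₂ continuous_inf ha hb hDinf }, rfl⟩
  have hSD : ∀ x : E, x ∈ S.toSubmodule ↔ x ∈ closure D := fun x => by rw [← hS]; rfl
  -- near-optimal ideal elements
  have key : ∀ b : S.toSubmodule, ∀ δ > 0, ∃ n, ∃ y : S.toSubmodule,
      y ∈ ((In n).comap S).toSubmodule ∧
      ‖b - y‖ ≤ ‖(Submodule.Quotient.mk (b : E) : E ⧸ I.toSubmodule)‖ + δ := by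
    intro b δ hδ
    have hb : (b : E) ∈ closure D := (hSD _).1 b.2
    obtain ⟨x, hx, hxd⟩ := Metric.mem_closure_iff.1 hb (δ/4) (by positivity)
    obtain ⟨m, hm⟩ := exists_pow_lt_of_lt_one (show (0:ℝ) < δ/4 by positivity)
      (show (1/2 : ℝ) < 1 by norm_num)
    obtain ⟨n, hn⟩ := hg1 m x
    refine ⟨n, ⟨g m x, (hSD _).2 (subset_closure (hDg m x hx))⟩, hn, ?_⟩
    have h1 : ‖x - g m x‖ ≤ ‖(Submodule.Quotient.mk x : E ⧸ I.toSubmodule)‖ + δ/4 :=
      (hg2 m x).trans (by linarith)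
    rw [dist_eq_norm] at hxd
    have h2 : ‖(Submodule.Quotient.mk x : E ⧸ I.toSubmodule)‖ ≤
        ‖(Submodule.Quotient.mk (b : E) : E ⧸ I.toSubmodule)‖ + δ/4 := by
      have h3 : (Submodule.Quotient.mk x : E ⧸ I.toSubmodule) =
        Submodule.Quotient.mk (b : E) - Submodule.Quotient.mk ((b : E) - x) := by
        rw [← Submodule.Quotient.mk_sub]; congr 1; abel
      rw [h3]
      refine (norm_sub_le _ _).trans ?_
      have := Submodule.Quotient.norm_mk_le I.toSubmodule ((b : E) - x)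
      linarith
    change ‖(b : E) - g m x‖ ≤ _
    have h4 : (b : E) - g m x = ((b : E) - x) + (x - g m x) := by abel
    rw [h4]
    have := norm_add_le ((b : E) - x) (x - g m x)
    linarith
  refine ⟨S, ?_, ?_, ?_, ?_⟩
  · -- separability
    have h1 : IsSeparable (closure D) := hDc.isSeparable.closure
    rw [← hS] at h1
    exact h1.separableSpace
  · apply Subset.antisymm
    · intro b hb
      have hb0 : (Submodule.Quotient.mk (b : E) : E ⧸ I.toSubmodule) = 0 :=
        (Submodule.Quotient.mk_eq_zero _).2 hb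
      rw [Metric.mem_closure_iff]
      intro ε hε
      obtain ⟨n, y, hy, hyn⟩ := key b (ε/2) (half_pos hε)
      refine ⟨y, mem_iUnion.2 ⟨n, hy⟩, ?_⟩
      rw [dist_eq_norm]
      rw [hb0, norm_zero] at hyn
      linarith
    · apply closure_minimal _ (I.comap S).isClosed'
      intro x hx
      obtain ⟨n, hn⟩ := mem_iUnion.1 hx
      exact hle n hn
  · intro x
    apply le_antisymm
    · apply le_of_forall_pos_le_add
      intro δ hδ
      obtain ⟨n, y, hy, hyn⟩ := key x δ hδ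
      have h1 : (Submodule.Quotient.mk x : S.toSubmodule ⧸ (I.comap S).toSubmodule) =
          Submodule.Quotient.mk (x - y) := by
        rw [Submodule.Quotient.eq]
        have : x - (x - y) = y := by abel
        rw [this]
        exact hle n hy
      rw [h1]
      exact (Submodule.Quotient.norm_mk_le _ _).trans hyn
    · rw [← kappa_mk]
      refine ((kappa I S).le_opNorm _).trans ?_
      have := norm_kappa_le I S
      have h0 := norm_nonneg (Submodule.Quotient.mk x : S.toSubmodule ⧸ (I.comap S).toSubmodule)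
      nlinarith
  · intro a
    -- choose approximating indices
    have hidx : ∀ k : ℕ, ∃ i, ‖d i - a‖ < (1/2 : ℝ) ^ k := by
      intro k
      obtain ⟨i, hi⟩ := hd.exists_dist_lt a (hpow k)
      exact ⟨i, by rw [← dist_eq_norm, dist_comm]; exact hi⟩
    choose idx hidx using hidx
    let xs : ℕ → E := fun k => Nat.rec (h (idx 0, 0) 0) (fun k x => h (idx (k + 1), k) x) k
    have hxs0 : xs 0 = h (idx 0, 0) 0 := rfl
    have hxss : ∀ k, xs (k + 1) = h (idx (k + 1), k) (xs k) := fun k => rfl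
    have hxsD : ∀ k, xs k ∈ D := by
      intro k
      induction k with
      | zero => rw [hxs0]; exact hDh _ _ hD0
      | succ k ih => rw [hxss]; exact hDh _ _ ih
    have hxsφ : ∀ k, (Submodule.Quotient.mk (xs k) : E ⧸ I.toSubmodule) = φ (d (idx k)) := by
      intro k
      cases k with
      | zero => rw [hxs0]; exact hh1 _ _
      | succ k => rw [hxss]; exact hh1 _ _
    have hdist : ∀ k, dist (xs k) (xs (k + 1)) ≤ (2 * ‖φ‖ + 1) * (1/2 : ℝ) ^ k := by
      intro k
      rw [dist_eq_norm, hxss]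
      refine (hh2 _ _).trans ?_
      rw [hxsφ k]
      simp only
      rw [← map_sub]
      have h1 := φ.le_opNorm (d (idx k) - d (idx (k + 1)))
      have h2 : ‖d (idx k) - d (idx (k + 1))‖ ≤ 2 * (1/2 : ℝ) ^ k := by
        have h3 := hidx k
        have h4 := hidx (k + 1)
        have h5 : d (idx k) - d (idx (k + 1)) = (d (idx k) - a) - (d (idx (k + 1)) - a) := by abel
        rw [h5]
        refine (norm_sub_le _ _).trans ?_
        have h6 : (1/2 : ℝ) ^ (k + 1) ≤ (1/2 : ℝ) ^ k := by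
          rw [pow_succ]; have := hpow k; linarith
        linarith
      have h7 : ‖φ‖ * ‖d (idx k) - d (idx (k + 1))‖ ≤ ‖φ‖ * (2 * (1/2 : ℝ) ^ k) :=
        mul_le_mul_of_nonneg_left h2 (norm_nonneg φ)
      linarith
    have hcau : CauchySeq xs := cauchySeq_of_le_geometric _ _ (by norm_num) hdist
    obtain ⟨x, hx⟩ := cauchySeq_tendsto_of_complete hcau
    have hxS : x ∈ closure D := mem_closure_of_tendsto hx (Eventually.of_forall hxsD)
    refine ⟨⟨x, (hSD _).2 hxS⟩, ?_⟩
    have hlim1 : Tendsto (fun k => (Submodule.Quotient.mk (xs k) : E ⧸ I.toSubmodule)) atTop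
        (𝓝 (Submodule.Quotient.mk x)) := by
      rw [tendsto_iff_norm_sub_tendsto_zero]
      have h1 : Tendsto (fun k => ‖xs k - x‖) atTop (𝓝 0) :=
        tendsto_iff_norm_sub_tendsto_zero.1 hx
      refine squeeze_zero (fun _ => norm_nonneg _) (fun k => ?_) h1
      rw [← Submodule.Quotient.mk_sub]
      exact Submodule.Quotient.norm_mk_le _ _
    have hlim2 : Tendsto (fun k => φ (d (idx k))) atTop (𝓝 (φ a)) := by
      apply (φ.continuous.tendsto a).comp
      rw [tendsto_iff_norm_sub_tendsto_zero]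
      refine squeeze_zero (fun _ => norm_nonneg _) (fun k => (hidx k).le) ?_
      exact tendsto_pow_atTop_nhds_zero_of_lt_one (by norm_num) (by norm_num)
    have heq : (fun k => (Submodule.Quotient.mk (xs k) : E ⧸ I.toSubmodule)) =
        fun k => φ (d (idx k)) := funext hxsφ
    rw [heq] at hlim1
    exact tendsto_nhds_unique hlim2 hlim1

end Reduction


/-! ### Semiprojectivity for nonseparable targets -/

section Nonsep

variable {A : Type u} [NormedAddCommGroup A] [Lattice A] [NormedSpace ℝ A] [IsBanachLattice A]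
  [SeparableSpace A]

instance (E : Type v) [NormedAddCommGroup E] [Lattice E] [NormedSpace ℝ E] [IsBanachLattice E]
    (S : ClosedSublattice E) : IsBanachLattice S.toSubmodule where

theorem semiprojective_nonsep (hA : Semiprojective.{u, v} A)
    (E : Type v) [NormedAddCommGroup E] [Lattice E] [NormedSpace ℝ E] [IsBanachLattice E]
    (I : ClosedIdeal E) (In : ℕ → ClosedIdeal E)
    (hle : ∀ n, (In n).toSubmodule ≤ I.toSubmodule)
    (hmono : Monotone (fun n => (In n).toSubmodule))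
    (hI : (I.toSubmodule : Set E) = closure (⋃ n, ((In n).toSubmodule : Set E)))
    (φ : A →L[ℝ] (E ⧸ I.toSubmodule)) (hφ : IsLatticeHom φ) (hφ1 : ‖φ‖ ≤ 1) :
    ∃ n : ℕ, ∀ ε : ℝ, 0 < ε → ∃ ψ : A →L[ℝ] (E ⧸ (In n).toSubmodule),
      IsLatticeHom ψ ∧ (∀ a, Submodule.factor (hle n) (ψ a) = φ a) ∧ ‖ψ‖ ≤ 1 + ε := by
  obtain ⟨S, hSsep, hSI, hSn, hSφ⟩ := separable_reduction I In hle hI φ
  have hiso : ∀ x, ‖(kappa I S).toLinearMap x‖ = ‖x‖ := by
    intro x
    obtain ⟨x, rfl⟩ := Submodule.Quotient.mk_surjective _ x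
    exact (hSn x).symm
  let κ : (S.toSubmodule ⧸ (I.comap S).toSubmodule) →ₗᵢ[ℝ] (E ⧸ I.toSubmodule) :=
    ⟨(kappa I S).toLinearMap, hiso⟩
  have hκ : ∀ x, κ x = kappa I S x := fun x => rfl
  have hrange : ∀ a, φ a ∈ LinearMap.range κ.toLinearMap := by
    intro a
    obtain ⟨x, hx⟩ := hSφ a
    exact ⟨Submodule.Quotient.mk x, by rw [hx]; rfl⟩
  let φ' : A →L[ℝ] LinearMap.range κ.toLinearMap := φ.codRestrict _ hrange
  let φS : A →L[ℝ] (S.toSubmodule ⧸ (I.comap S).toSubmodule) :=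
    (κ.equivRange.symm.toContinuousLinearEquiv : LinearMap.range κ.toLinearMap →L[ℝ] _).comp φ'
  have hφS : ∀ a, kappa I S (φS a) = φ a := by
    intro a
    have h1 : κ.equivRange (φS a) = φ' a := by
      change κ.equivRange (κ.equivRange.symm (φ' a)) = φ' a
      exact κ.equivRange.apply_symm_apply _
    have h2 := congrArg (Subtype.val) h1
    exact h2
  have hinj : Function.Injective (kappa I S) := fun x y hxy => κ.injective hxy
  have hφS_lat : IsLatticeHom φS := by
    intro a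
    apply hinj
    rw [hφS, kappa_abs, hφS]
    exact hφ a
  have hφS_norm : ‖φS‖ ≤ 1 := by
    apply ContinuousLinearMap.opNorm_le_bound _ zero_le_one
    intro a
    rw [← hiso]
    change ‖kappa I S (φS a)‖ ≤ _
    rw [hφS]
    refine (φ.le_opNorm a).trans ?_
    exact mul_le_mul_of_nonneg_right hφ1 (norm_nonneg a)
  have hle' : ∀ n, ((In n).comap S).toSubmodule ≤ (I.comap S).toSubmodule :=
    fun n x hx => hle n hx
  have hmono' : Monotone (fun n => ((In n).comap S).toSubmodule) :=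
    fun n m hnm x hx => hmono hnm hx
  obtain ⟨n, hn⟩ := hA S.toSubmodule (I.comap S) (fun n => (In n).comap S) hle' hmono' hSI
    φS hφS_lat hφS_norm
  refine ⟨n, fun ε hε => ?_⟩
  obtain ⟨ψS, hψlat, hψφ, hψn⟩ := hn ε hε
  refine ⟨(kappa (In n) S).comp ψS, ?_, ?_, ?_⟩
  · intro a
    change kappa (In n) S (ψS |a|) = |kappa (In n) S (ψS a)|
    rw [hψlat a, kappa_abs]
  · intro a
    have hnat : ∀ q : S.toSubmodule ⧸ ((In n).comap S).toSubmodule,
        Submodule.factor (hle n) (kappa (In n) S q) =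
          kappa I S (Submodule.factor (hle' n) q) := by
      intro q
      obtain ⟨x, rfl⟩ := Submodule.Quotient.mk_surjective _ q
      rfl
    change Submodule.factor (hle n) (kappa (In n) S (ψS a)) = φ a
    rw [hnat, hψφ a, hφS]
  · refine (ContinuousLinearMap.opNorm_comp_le _ _).trans ?_
    have h1 := norm_kappa_le (In n) S
    have h2 := norm_nonneg ψS
    nlinarith

end Nonsep

/-! ### A quasi-interior point of a separable ideal -/

section QuasiUnit

variable {X : Type v} [NormedAddCommGroup X] [Lattice X] [NormedSpace ℝ X] [IsBanachLattice X]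
  [SeparableSpace X]

lemma exists_quasi_unit (J : ClosedIdeal X) :
    ∃ e : X, e ∈ J.toSubmodule ∧ 0 ≤ e ∧ ∀ x : X, ∀ δ : ℝ, 0 < δ → ∃ N : ℕ, ∀ n ≥ N,
      ‖trunc (n • e) |x|‖ ≤ ‖(Submodule.Quotient.mk x : X ⧸ J.toSubmodule)‖ + δ := by
  have : SecondCountableTopology X := UniformSpace.secondCountable_of_separable X
  obtain ⟨j, hj⟩ := exists_dense_seq J.toSubmodule
  set t : ℕ → X := fun i => ((1/2 : ℝ) ^ i * (‖(j i : X)‖ + 1)⁻¹) • |(j i : X)| with ht
  have ht0 : ∀ i, 0 ≤ t i := fun i => smul_nonneg (by positivity) (abs_nonneg _)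
  have htn : ∀ i, ‖t i‖ ≤ (1/2 : ℝ) ^ i := by
    intro i
    rw [ht]
    simp only
    rw [norm_smul, norm_abs_eq_norm, Real.norm_eq_abs, abs_of_nonneg (by positivity), mul_assoc]
    have h1 : (‖(j i : X)‖ + 1)⁻¹ * ‖(j i : X)‖ ≤ 1 := by
      rw [inv_mul_le_iff₀ (by positivity)]
      linarith
    have h2 : (0:ℝ) ≤ (1/2 : ℝ) ^ i := by positivity
    nlinarith
  have hts : Summable t := by
    apply Summable.of_norm
    exact Summable.of_nonneg_of_le (fun _ => norm_nonneg _) htn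
      (summable_geometric_of_lt_one (by norm_num) (by norm_num))
  have htJ : ∀ i, t i ∈ J.toSubmodule := fun i =>
    J.toSubmodule.smul_mem _ (J.abs_mem (j i).2)
  refine ⟨∑' i, t i, ?_, tsum_nonneg ht0, ?_⟩
  · have h1 := hts.hasSum
    have hcl : IsClosed (J.toSubmodule : Set X) := J.isClosed'
    exact hcl.mem_of_tendsto h1 (Eventually.of_forall fun s => J.toSubmodule.sum_mem fun i _ => htJ i)
  · intro x δ hδ
    obtain ⟨z, hz, hzn⟩ := Submodule.Quotient.norm_mk_lt
      (Submodule.Quotient.mk x : X ⧸ J.toSubmodule) (half_pos hδ)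
    have hxz : x - z ∈ J.toSubmodule := (Submodule.Quotient.eq _).1 hz.symm
    obtain ⟨i, hi⟩ := hj.exists_dist_lt (⟨x - z, hxz⟩ : J.toSubmodule) (half_pos hδ)
    have hi' : ‖(x - z) - (j i : X)‖ < δ/2 := by
      rw [Subtype.dist_eq, dist_eq_norm] at hi
      exact hi
    set e := ∑' i, t i with he
    have he0 : 0 ≤ e := tsum_nonneg ht0
    have hle : t i ≤ e := hts.le_tsum i (fun k _ => ht0 k)
    have hji : |(j i : X)| ≤ ((2 : ℝ) ^ i * (‖(j i : X)‖ + 1)) • e := by
      have h1 := smul_le_smul_of_nonneg_left hle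
        (show (0:ℝ) ≤ (2 : ℝ) ^ i * (‖(j i : X)‖ + 1) by positivity)
      refine le_trans (le_of_eq ?_) h1
      rw [ht]
      simp only
      rw [smul_smul]
      have h2 : (2 : ℝ) ^ i * (‖(j i : X)‖ + 1) * ((1/2 : ℝ) ^ i * (‖(j i : X)‖ + 1)⁻¹) = 1 := by
        have h3 : (2:ℝ) ^ i * (1/2 : ℝ) ^ i = 1 := by rw [← mul_pow]; norm_num
        have h4 : (‖(j i : X)‖ + 1) * (‖(j i : X)‖ + 1)⁻¹ = 1 := mul_inv_cancel₀ (by positivity)
        calc (2 : ℝ) ^ i * (‖(j i : X)‖ + 1) * ((1/2 : ℝ) ^ i * (‖(j i : X)‖ + 1)⁻¹)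
            = ((2:ℝ) ^ i * (1/2 : ℝ) ^ i) * ((‖(j i : X)‖ + 1) * (‖(j i : X)‖ + 1)⁻¹) := by ring
          _ = 1 := by rw [h3, h4, one_mul]
      rw [h2, one_smul]
    obtain ⟨N, hN⟩ := exists_nat_ge ((2 : ℝ) ^ i * (‖(j i : X)‖ + 1))
    refine ⟨N, fun n hn => ?_⟩
    have hne : |(j i : X)| ≤ n • e := by
      refine hji.trans ?_
      rw [← Nat.cast_smul_eq_nsmul ℝ]
      apply smul_le_smul_of_nonneg_right _ he0
      exact hN.trans (by exact_mod_cast hn)
    have h1 : trunc (n • e) |x| ≤ |x - (j i : X)| := by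
      refine (trunc_anti hne).trans ?_
      unfold trunc
      apply sup_le _ (abs_nonneg _)
      rw [sub_le_iff_le_add]
      have : x = (x - (j i : X)) + (j i : X) := by abel
      calc |x| = |(x - (j i : X)) + (j i : X)| := by rw [← this]
        _ ≤ |x - (j i : X)| + |(j i : X)| := abs_add_le _ _
    have h2 : ‖trunc (n • e) |x|‖ ≤ ‖x - (j i : X)‖ := by
      apply norm_le_norm_of_abs_le_abs
      rw [abs_of_nonneg (trunc_nonneg _ _)]
      exact h1
    refine h2.trans ?_
    have h3 : x - (j i : X) = z + ((x - z) - (j i : X)) := by abel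
    rw [h3]
    have := norm_add_le z ((x - z) - (j i : X))
    linarith

end QuasiUnit

/-! ### The maps `F` and the ideal -/

section FJ

variable {X : Type v} [NormedAddCommGroup X] [Lattice X] [NormedSpace ℝ X] [IsBanachLattice X]

lemma trunc_sub_mem (J : ClosedIdeal X) {c x : X} (hc : c ∈ J.toSubmodule) (hc0 : 0 ≤ c)
    (hx : 0 ≤ x) : x - trunc c x ∈ J.toSubmodule := by
  refine J.solid hc ?_
  have h1 : 0 ≤ x - trunc c x := sub_nonneg.2 (trunc_le_self hc0 hx)
  rw [abs_of_nonneg h1, abs_of_nonneg hc0, sub_le_iff_le_add, add_comm, ← sub_le_iff_le_add]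
  exact le_sup_left

lemma G_sub_mem (J : ClosedIdeal X) {e x : X} (he : e ∈ J.toSubmodule) (he0 : 0 ≤ e)
    {n : ℕ} (hn : 0 < n) (hx : 0 ≤ x) : x - G e n x ∈ J.toSubmodule := by
  have h1 : x - G e n x = ((n : ℝ)⁻¹) • ∑ i ∈ Finset.range n, (x - trunc ((2 ^ i * n) • e) x) := by
    unfold G
    rw [Finset.sum_sub_distrib, smul_sub]
    congr 1
    rw [Finset.sum_const, Finset.card_range, ← Nat.cast_smul_eq_nsmul ℝ, smul_smul,
      inv_mul_cancel₀ (by positivity), one_smul]
  rw [h1]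
  apply J.toSubmodule.smul_mem
  apply J.toSubmodule.sum_mem
  intro i _
  exact trunc_sub_mem J (J.toSubmodule.smul_of_tower_mem _ he) (nsmul_nonneg he0 _) hx

lemma F_sub_mem (J : ClosedIdeal X) {e : X} (he : e ∈ J.toSubmodule) (he0 : 0 ≤ e)
    {n : ℕ} (hn : 0 < n) (x : X) : x - F e n x ∈ J.toSubmodule := by
  have h1 : x - F e n x = (x⁺ - G e n x⁺) - (x⁻ - G e n x⁻) := by
    calc x - F e n x = (x⁺ - x⁻) - F e n x := by rw [posPart_sub_negPart]
      _ = _ := by unfold F; abel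
  rw [h1]
  exact J.toSubmodule.sub_mem (G_sub_mem J he he0 hn (posPart_nonneg x))
    (G_sub_mem J he he0 hn (negPart_nonneg x))

end FJ


/-! ### The main construction for separable `X` -/

section Main

open BoundedContinuousFunction

variable {X : Type v} [NormedAddCommGroup X] [Lattice X] [NormedSpace ℝ X] [IsBanachLattice X]

instance : IsBanachLattice (ℕ →ᵇ X) where
  smul_le_smul_of_nonneg_left := by
    intro r hr f g h k
    exact smul_le_smul_of_nonneg_left (h k) hr
  smul_le_smul_of_nonneg_right := by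
    intro f hf r s h k
    exact smul_le_smul_of_nonneg_right h (hf k)

/-- null sequences in `J` -/
noncomputable def nullIdeal (J : ClosedIdeal X) : ClosedIdeal (ℕ →ᵇ X) where
  carrier := {f | (∀ k, f k ∈ J.toSubmodule) ∧ Tendsto (fun k => f k) atTop (𝓝 0)}
  add_mem' := by
    rintro f g ⟨hf1, hf2⟩ ⟨hg1, hg2⟩
    refine ⟨fun k => J.toSubmodule.add_mem (hf1 k) (hg1 k), ?_⟩
    simpa using hf2.add hg2
  zero_mem' := ⟨fun k => J.toSubmodule.zero_mem, tendsto_const_nhds⟩
  smul_mem' := by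
    rintro r f ⟨hf1, hf2⟩
    refine ⟨fun k => J.toSubmodule.smul_mem r (hf1 k), ?_⟩
    simpa using hf2.const_smul r
  isClosed' := by
    rw [← closure_subset_iff_isClosed]
    intro f hf
    rw [Metric.mem_closure_iff] at hf
    constructor
    · intro k
      have hcl : IsClosed (J.toSubmodule : Set X) := J.isClosed'
      have : f k ∈ closure (J.toSubmodule : Set X) := by
        rw [Metric.mem_closure_iff]
        intro ε hε
        obtain ⟨g, hg, hfg⟩ := hf ε hε
        exact ⟨g k, hg.1 k, lt_of_le_of_lt (BoundedContinuousFunction.dist_coe_le_dist k) hfg⟩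
      rwa [hcl.closure_eq] at this
    · rw [Metric.tendsto_atTop]
      intro ε hε
      obtain ⟨g, hg, hfg⟩ := hf (ε/2) (half_pos hε)
      obtain ⟨N, hN⟩ := Metric.tendsto_atTop.1 hg.2 (ε/2) (half_pos hε)
      refine ⟨N, fun k hk => ?_⟩
      have h1 := hN k hk
      have h2 : dist (f k) (g k) < ε/2 :=
        lt_of_le_of_lt (BoundedContinuousFunction.dist_coe_le_dist k) hfg
      have := dist_triangle (f k) (g k) 0
      linarith
  solid' := by
    rintro f g ⟨hf1, hf2⟩ h
    constructor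
    · intro k
      exact J.solid (hf1 k) (h k)
    · rw [tendsto_zero_iff_norm_tendsto_zero] at hf2 ⊢
      exact squeeze_zero (fun _ => norm_nonneg _) (fun k => HasSolidNorm.solid (h k)) hf2

/-- finitely supported sequences in `J` -/
noncomputable def finIdeal (J : ClosedIdeal X) (n : ℕ) : ClosedIdeal (ℕ →ᵇ X) where
  carrier := {f | (∀ k, f k ∈ J.toSubmodule) ∧ ∀ k, n ≤ k → f k = 0}
  add_mem' := by
    rintro f g ⟨hf1, hf2⟩ ⟨hg1, hg2⟩
    refine ⟨fun k => J.toSubmodule.add_mem (hf1 k) (hg1 k), fun k hk => ?_⟩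
    simp [hf2 k hk, hg2 k hk]
  zero_mem' := ⟨fun k => J.toSubmodule.zero_mem, fun k _ => rfl⟩
  smul_mem' := by
    rintro r f ⟨hf1, hf2⟩
    refine ⟨fun k => J.toSubmodule.smul_mem r (hf1 k), fun k hk => ?_⟩
    simp [hf2 k hk]
  isClosed' := by
    rw [← closure_subset_iff_isClosed]
    intro f hf
    rw [Metric.mem_closure_iff] at hf
    constructor
    · intro k
      have hcl : IsClosed (J.toSubmodule : Set X) := J.isClosed'
      have : f k ∈ closure (J.toSubmodule : Set X) := by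
        rw [Metric.mem_closure_iff]
        intro ε hε
        obtain ⟨g, hg, hfg⟩ := hf ε hε
        exact ⟨g k, hg.1 k, lt_of_le_of_lt (BoundedContinuousFunction.dist_coe_le_dist k) hfg⟩
      rwa [hcl.closure_eq] at this
    · intro k hk
      by_contra hne
      obtain ⟨g, hg, hfg⟩ := hf ‖f k‖ (norm_pos_iff.2 hne)
      have h1 : dist (f k) (g k) < ‖f k‖ :=
        lt_of_le_of_lt (BoundedContinuousFunction.dist_coe_le_dist k) hfg
      rw [hg.2 k hk, dist_zero_right] at h1
      exact lt_irrefl _ h1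
  solid' := by
    rintro f g ⟨hf1, hf2⟩ h
    constructor
    · intro k
      exact J.solid (hf1 k) (h k)
    · intro k hk
      have h1 : ‖g k‖ ≤ ‖f k‖ := HasSolidNorm.solid (h k)
      rw [hf2 k hk, norm_zero] at h1
      exact norm_le_zero_iff.1 h1

lemma mem_nullIdeal {J : ClosedIdeal X} {f : ℕ →ᵇ X} : f ∈ (nullIdeal J).toSubmodule ↔
    (∀ k, f k ∈ J.toSubmodule) ∧ Tendsto (fun k => f k) atTop (𝓝 0) := Iff.rfl

lemma mem_finIdeal {J : ClosedIdeal X} {n : ℕ} {f : ℕ →ᵇ X} : f ∈ (finIdeal J n).toSubmodule ↔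
    (∀ k, f k ∈ J.toSubmodule) ∧ ∀ k, n ≤ k → f k = 0 := Iff.rfl

lemma finIdeal_le (J : ClosedIdeal X) (n : ℕ) :
    (finIdeal J n).toSubmodule ≤ (nullIdeal J).toSubmodule := by
  intro f hf
  rw [mem_finIdeal] at hf
  rw [mem_nullIdeal]
  refine ⟨hf.1, ?_⟩
  apply tendsto_const_nhds.congr'
  filter_upwards [eventually_ge_atTop n] with k hk
  exact (hf.2 k hk).symm

lemma finIdeal_mono (J : ClosedIdeal X) : Monotone (fun n => (finIdeal J n).toSubmodule) := by
  intro n m hnm f hf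
  exact ⟨hf.1, fun k hk => hf.2 k (hnm.trans hk)⟩

lemma nullIdeal_eq (J : ClosedIdeal X) : ((nullIdeal J).toSubmodule : Set (ℕ →ᵇ X)) =
    closure (⋃ n, ((finIdeal J n).toSubmodule : Set (ℕ →ᵇ X))) := by
  apply Subset.antisymm
  · intro f hf
    have hf' : f ∈ (nullIdeal J).toSubmodule := hf
    rw [mem_nullIdeal] at hf'
    rw [Metric.mem_closure_iff]
    intro ε hε
    obtain ⟨N, hN⟩ := Metric.tendsto_atTop.1 hf'.2 (ε/2) (half_pos hε)
    let g : ℕ →ᵇ X := ofNormedAddCommGroupDiscrete (fun k => if k < N then f k else 0) ‖f‖ (by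
      intro k
      split_ifs
      · exact f.norm_coe_le_norm k
      · rw [norm_zero]; exact norm_nonneg _)
    have hg : ∀ k, g k = if k < N then f k else 0 := fun k => rfl
    refine ⟨g, mem_iUnion.2 ⟨N, ?_, ?_⟩, ?_⟩
    · intro k
      rw [hg]
      split_ifs
      · exact hf'.1 k
      · exact J.toSubmodule.zero_mem
    · intro k hk
      rw [hg, if_neg (not_lt.2 hk)]
    · refine lt_of_le_of_lt ((BoundedContinuousFunction.dist_le (half_pos hε).le).2 ?_)
        (half_lt_self hε)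
      intro k
      rw [hg]
      split_ifs with h
      · rw [dist_self]; exact (half_pos hε).le
      · exact (hN k (not_lt.1 h)).le
  · apply closure_minimal _ (nullIdeal J).isClosed'
    intro f hf
    obtain ⟨n, hn⟩ := mem_iUnion.1 hf
    exact finIdeal_le J n hn

/-- evaluation at `n` on the quotient by `finIdeal J n` -/
noncomputable def evQ (J : ClosedIdeal X) (n : ℕ) :
    ((ℕ →ᵇ X) ⧸ (finIdeal J n).toSubmodule) →L[ℝ] X :=
  LinearMap.mkContinuous
    ((finIdeal J n).toSubmodule.liftQ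
      ({ toFun := fun f : ℕ →ᵇ X => f n
         map_add' := fun _ _ => rfl
         map_smul' := fun _ _ => rfl } : (ℕ →ᵇ X) →ₗ[ℝ] X)
      (by
        intro f hf
        exact hf.2 n le_rfl)) 1
    (by
      intro q
      rw [one_mul]
      apply le_of_forall_pos_lt_add
      intro ε hε
      obtain ⟨z, hz, hzn⟩ := Submodule.Quotient.norm_mk_lt q hε
      rw [← hz]
      rw [← hz] at hzn
      refine lt_of_le_of_lt ?_ hzn
      exact z.norm_coe_le_norm n)

lemma evQ_mk (J : ClosedIdeal X) (n : ℕ) (f : ℕ →ᵇ X) :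
    evQ J n (Submodule.Quotient.mk f) = f n := rfl

lemma norm_evQ_le (J : ClosedIdeal X) (n : ℕ) : ‖evQ J n‖ ≤ 1 :=
  LinearMap.mkContinuous_norm_le _ zero_le_one _

lemma evQ_abs (J : ClosedIdeal X) (n : ℕ) (q : (ℕ →ᵇ X) ⧸ (finIdeal J n).toSubmodule) :
    evQ J n |q| = |evQ J n q| := by
  obtain ⟨f, rfl⟩ := Submodule.Quotient.mk_surjective _ q
  rw [← quot_mk_abs, evQ_mk, evQ_mk]
  rfl

/-- the sequence `k ↦ F e (k+1) x` -/
noncomputable def seqF (e : X) (he : 0 ≤ e) (x : X) : ℕ →ᵇ X :=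
  ofNormedAddCommGroupDiscrete (fun k => F e (k + 1) x) ‖x‖ (fun k => norm_F_le he (Nat.succ_pos k) x)

lemma seqF_apply (e : X) (he : 0 ≤ e) (x : X) (k : ℕ) : seqF e he x k = F e (k + 1) x := rfl

lemma tendsto_inv_mul (C : ℝ) : Tendsto (fun k : ℕ => (((k + 1 : ℕ) : ℝ))⁻¹ * C) atTop (𝓝 0) := by
  have h1 : Tendsto (fun k : ℕ => (((k + 1 : ℕ) : ℝ))⁻¹) atTop (𝓝 0) := by
    have := tendsto_one_div_add_atTop_nhds_zero_nat (𝕜 := ℝ)
    refine this.congr fun k => ?_
    push_cast
    rw [one_div]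
  simpa using h1.mul_const C

variable [SeparableSpace X]

section WithUnit

variable (J : ClosedIdeal X) (e : X) (heJ : e ∈ J.toSubmodule) (he : 0 ≤ e)
  (hunit : ∀ x : X, ∀ δ : ℝ, 0 < δ → ∃ N : ℕ, ∀ n ≥ N,
      ‖trunc (n • e) |x|‖ ≤ ‖(Submodule.Quotient.mk x : X ⧸ J.toSubmodule)‖ + δ)

include heJ he hunit

lemma F_tendsto_zero {x : X} (hx : x ∈ J.toSubmodule) :
    Tendsto (fun k : ℕ => F e (k + 1) x) atTop (𝓝 0) := by
  rw [Metric.tendsto_atTop]
  intro ε hε
  obtain ⟨N, hN⟩ := hunit x (ε/2) (half_pos hε)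
  refine ⟨N, fun k hk => ?_⟩
  rw [dist_zero_right]
  have h1 := norm_F_le_trunc he (Nat.succ_pos k) x
  have h2 := hN (k + 1) (by omega)
  rw [(Submodule.Quotient.mk_eq_zero _).2 hx, norm_zero, zero_add] at h2
  calc ‖F e (k + 1) x‖ ≤ ‖trunc ((k + 1) • e) |x|‖ := h1
    _ ≤ ε/2 := h2
    _ < ε := half_lt_self hε

lemma F_perturb {x y : X} (hxy : x - y ∈ J.toSubmodule) :
    Tendsto (fun k : ℕ => F e (k + 1) x - F e (k + 1) y) atTop (𝓝 0) := by
  have h1 := F_tendsto_zero J e heJ he hunit hxy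
  have h2 : Tendsto (fun k : ℕ => F e (k + 1) x - F e (k + 1) y - F e (k + 1) (x - y)) atTop
      (𝓝 0) := by
    apply squeeze_zero_norm _ (tendsto_inv_mul (6 * (‖y‖ + ‖x - y‖)))
    intro k
    have h3 := F_add he (n := k + 1) y (x - y)
    rw [add_sub_cancel] at h3
    exact h3
  have h4 := h2.add h1
  simpa using h4

lemma seqF_add_sub_mem (x y z : X) (h : z - (x + y) ∈ J.toSubmodule) :
    seqF e he z - (seqF e he x + seqF e he y) ∈ (nullIdeal J).toSubmodule := by
  rw [mem_nullIdeal]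
  constructor
  · intro k
    change F e (k + 1) z - (F e (k + 1) x + F e (k + 1) y) ∈ J.toSubmodule
    have h1 := F_sub_mem J heJ he (Nat.succ_pos k) z
    have h2 := F_sub_mem J heJ he (Nat.succ_pos k) x
    have h3 := F_sub_mem J heJ he (Nat.succ_pos k) y
    have h4 : F e (k + 1) z - (F e (k + 1) x + F e (k + 1) y) =
        (z - (x + y)) - (z - F e (k + 1) z) + ((x - F e (k + 1) x) + (y - F e (k + 1) y)) := by
      abel
    rw [h4]
    exact J.toSubmodule.add_mem (J.toSubmodule.sub_mem h h1) (J.toSubmodule.add_mem h2 h3)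
  · change Tendsto (fun k : ℕ => F e (k + 1) z - (F e (k + 1) x + F e (k + 1) y)) atTop (𝓝 0)
    have h1 := F_perturb J e heJ he hunit h
    have h2 : Tendsto (fun k : ℕ => F e (k + 1) (x + y) - F e (k + 1) x - F e (k + 1) y) atTop
        (𝓝 0) := by
      apply squeeze_zero_norm _ (tendsto_inv_mul (6 * (‖x‖ + ‖y‖)))
      intro k
      exact F_add he (n := k + 1) x y
    have h3 := h1.add h2
    rw [add_zero] at h3
    refine h3.congr fun k => ?_
    abel

lemma seqF_abs_sub_mem (x z : X) (h : z - |x| ∈ J.toSubmodule) :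
    seqF e he z - |seqF e he x| ∈ (nullIdeal J).toSubmodule := by
  rw [mem_nullIdeal]
  constructor
  · intro k
    change F e (k + 1) z - |F e (k + 1) x| ∈ J.toSubmodule
    rw [← Submodule.Quotient.eq, quot_mk_abs]
    have h1 := (Submodule.Quotient.eq _).2 (F_sub_mem J heJ he (Nat.succ_pos k) z)
    have h2 := (Submodule.Quotient.eq _).2 (F_sub_mem J heJ he (Nat.succ_pos k) x)
    rw [← h1, ← h2, ← quot_mk_abs]
    exact (Submodule.Quotient.eq _).2 h
  · change Tendsto (fun k : ℕ => F e (k + 1) z - |F e (k + 1) x|) atTop (𝓝 0)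
    have h1 := F_perturb J e heJ he hunit h
    have h2 : Tendsto (fun k : ℕ => F e (k + 1) |x| - |F e (k + 1) x|) atTop (𝓝 0) := by
      apply squeeze_zero_norm _ (tendsto_inv_mul ‖x‖)
      intro k
      exact F_abs he (Nat.succ_pos k) x
    have h3 := h1.add h2
    rw [add_zero] at h3
    refine h3.congr fun k => ?_
    abel

lemma norm_mk_seqF_le (x : X) :
    ‖(Submodule.Quotient.mk (seqF e he x) : (ℕ →ᵇ X) ⧸ (nullIdeal J).toSubmodule)‖ ≤
      ‖(Submodule.Quotient.mk x : X ⧸ J.toSubmodule)‖ := by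
  apply le_of_forall_pos_le_add
  intro δ hδ
  obtain ⟨N, hN⟩ := hunit x δ hδ
  have hex : ∀ k : ℕ, ∃ z : X, F e (k + 1) x - z ∈ J.toSubmodule ∧
      ‖z‖ ≤ ‖(Submodule.Quotient.mk x : X ⧸ J.toSubmodule)‖ + δ := by
    intro k
    obtain ⟨z, hz, hzn⟩ := Submodule.Quotient.norm_mk_lt
      (Submodule.Quotient.mk x : X ⧸ J.toSubmodule) hδ
    refine ⟨z, ?_, hzn.le⟩
    have h1 := F_sub_mem J heJ he (Nat.succ_pos k) x
    have h2 : x - z ∈ J.toSubmodule := (Submodule.Quotient.eq _).1 hz.symm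
    have h3 : F e (k + 1) x - z = (x - z) - (x - F e (k + 1) x) := by abel
    rw [h3]
    exact J.toSubmodule.sub_mem h2 h1
  choose z hz hzn using hex
  set R := ‖(Submodule.Quotient.mk x : X ⧸ J.toSubmodule)‖ with hR
  let g : ℕ →ᵇ X := ofNormedAddCommGroupDiscrete
    (fun k => if k < N then F e (k + 1) x - z k else 0) (‖x‖ + (R + δ)) (by
      intro k
      have hR0 : 0 ≤ R := norm_nonneg _
      split_ifs
      · refine (norm_sub_le _ _).trans ?_
        exact add_le_add (norm_F_le he (Nat.succ_pos k) x) (hzn k)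
      · rw [norm_zero]; positivity)
  have hg : ∀ k, g k = if k < N then F e (k + 1) x - z k else 0 := fun k => rfl
  have hgm : g ∈ (nullIdeal J).toSubmodule := by
    apply finIdeal_le J N
    rw [mem_finIdeal]
    constructor
    · intro k
      rw [hg]
      split_ifs
      · exact hz k
      · exact J.toSubmodule.zero_mem
    · intro k hk
      rw [hg, if_neg (not_lt.2 hk)]
  have h1 : (Submodule.Quotient.mk (seqF e he x) : (ℕ →ᵇ X) ⧸ (nullIdeal J).toSubmodule) =
      Submodule.Quotient.mk (seqF e he x - g) := by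
    rw [Submodule.Quotient.eq]
    have : seqF e he x - (seqF e he x - g) = g := by abel
    rw [this]; exact hgm
  rw [h1]
  refine (Submodule.Quotient.norm_mk_le _ _).trans ?_
  have hR0 : 0 ≤ R := norm_nonneg _
  rw [BoundedContinuousFunction.norm_le (by positivity)]
  intro k
  change ‖F e (k + 1) x - g k‖ ≤ R + δ
  rw [hg]
  split_ifs with hk
  · have : F e (k + 1) x - (F e (k + 1) x - z k) = z k := by abel
    rw [this]; exact hzn k
  · rw [sub_zero]
    exact (norm_F_le_trunc he (Nat.succ_pos k) x).trans (hN (k + 1) (by omega))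

end WithUnit

variable {A : Type u} [NormedAddCommGroup A] [Lattice A] [NormedSpace ℝ A] [IsBanachLattice A]
  [SeparableSpace A]

theorem lift_separable (hA : Semiprojective.{u, v} A) (J : ClosedIdeal X)
    (T : A →L[ℝ] (X ⧸ J.toSubmodule)) (hT : IsLatticeHom T) (hT1 : ‖T‖ ≤ 1) (ε : ℝ) (hε : 0 < ε) :
    ∃ T' : A →L[ℝ] X, IsLatticeHom T' ∧
      (∀ a, (Submodule.Quotient.mk (T' a) : X ⧸ J.toSubmodule) = T a) ∧ ‖T'‖ ≤ 1 + ε := by
  obtain ⟨e, heJ, he, hunit⟩ := exists_quasi_unit J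
  have hs : ∀ a : A, ∃ x : X, (Submodule.Quotient.mk x : X ⧸ J.toSubmodule) = T a :=
    fun a => Submodule.Quotient.mk_surjective _ _
  choose s hs using hs
  let Φ0 : A →+ ((ℕ →ᵇ X) ⧸ (nullIdeal J).toSubmodule) := AddMonoidHom.mk'
    (fun a => Submodule.Quotient.mk (seqF e he (s a))) (by
      intro a b
      rw [← Submodule.Quotient.mk_add, Submodule.Quotient.eq]
      apply seqF_add_sub_mem J e heJ he hunit
      rw [← Submodule.Quotient.eq, Submodule.Quotient.mk_add, hs, hs, hs, map_add])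
  have hΦ0 : ∀ a, Φ0 a = Submodule.Quotient.mk (seqF e he (s a)) := fun a => rfl
  have hbound : ∀ a, ‖Φ0 a‖ ≤ 1 * ‖a‖ := by
    intro a
    rw [hΦ0]
    refine (norm_mk_seqF_le J e heJ he hunit (s a)).trans ?_
    rw [hs]
    exact (T.le_opNorm a).trans (mul_le_mul_of_nonneg_right hT1 (norm_nonneg a))
  have hcont : Continuous Φ0 := AddMonoidHomClass.continuous_of_bound Φ0 1 hbound
  let φ : A →L[ℝ] ((ℕ →ᵇ X) ⧸ (nullIdeal J).toSubmodule) := Φ0.toRealLinearMap hcont
  have hφ : ∀ a, φ a = Submodule.Quotient.mk (seqF e he (s a)) := fun a => rfl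
  have hφ_norm : ‖φ‖ ≤ 1 := ContinuousLinearMap.opNorm_le_bound _ zero_le_one hbound
  have hφ_lat : IsLatticeHom φ := by
    intro a
    rw [hφ, hφ, ← quot_mk_abs, Submodule.Quotient.eq]
    apply seqF_abs_sub_mem J e heJ he hunit
    rw [← Submodule.Quotient.eq, quot_mk_abs, hs, hs]
    exact hT a
  obtain ⟨n, hn⟩ := semiprojective_nonsep hA (ℕ →ᵇ X) (nullIdeal J) (finIdeal J)
    (finIdeal_le J) (finIdeal_mono J) (nullIdeal_eq J) φ hφ_lat hφ_norm
  obtain ⟨ψ, hψ_lat, hψφ, hψ_norm⟩ := hn ε hε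
  refine ⟨(evQ J n).comp ψ, ?_, ?_, ?_⟩
  · intro a
    change evQ J n (ψ |a|) = |evQ J n (ψ a)|
    rw [hψ_lat a, evQ_abs]
  · intro a
    obtain ⟨f, hf⟩ := Submodule.Quotient.mk_surjective _ (ψ a)
    change (Submodule.Quotient.mk (evQ J n (ψ a)) : X ⧸ J.toSubmodule) = T a
    rw [← hf, evQ_mk]
    have h1 := hψφ a
    rw [← hf, hφ] at h1
    have h2 : (Submodule.Quotient.mk f : (ℕ →ᵇ X) ⧸ (nullIdeal J).toSubmodule) =
      Submodule.Quotient.mk (seqF e he (s a)) := h1
    rw [Submodule.Quotient.eq, mem_nullIdeal] at h2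
    have h3 := h2.1 n
    have h4 : f n - F e (n + 1) (s a) ∈ J.toSubmodule := h3
    have h5 := F_sub_mem J heJ he (Nat.succ_pos n) (s a)
    rw [← hs a, Submodule.Quotient.eq]
    have h6 : f n - s a = (f n - F e (n + 1) (s a)) - (s a - F e (n + 1) (s a)) := by abel
    rw [h6]
    exact J.toSubmodule.sub_mem h4 h5
  · refine (ContinuousLinearMap.opNorm_comp_le _ _).trans ?_
    have h1 := norm_evQ_le J n
    have h2 := norm_nonneg ψ
    nlinarith

end Main

/-! ### The main theorem -/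

section Final

lemma abs_smul_of_nonneg {F : Type*} [NormedAddCommGroup F] [Lattice F] [NormedSpace ℝ F]
    [IsBanachLattice F] {r : ℝ} (hr : 0 ≤ r) (x : F) : |r • x| = r • |x| := by
  have key : ∀ {r : ℝ} (_ : 0 ≤ r) (x : F), |r • x| ≤ r • |x| := by
    intro r hr x
    rw [abs_le']
    constructor
    · exact smul_le_smul_of_nonneg_left (le_abs_self x) hr
    · rw [← smul_neg]
      exact smul_le_smul_of_nonneg_left (neg_le_abs x) hr
  apply le_antisymm (key hr x)
  rcases eq_or_lt_of_le hr with h0 | hpos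
  · rw [← h0, zero_smul]; exact abs_nonneg _
  · have h1 := key (inv_nonneg.2 hr) (r • x)
    rw [smul_smul, inv_mul_cancel₀ hpos.ne', one_smul] at h1
    have h2 := smul_le_smul_of_nonneg_left h1 hr
    rwa [smul_smul, mul_inv_cancel₀ hpos.ne', one_smul] at h2

variable {A : Type u} [NormedAddCommGroup A] [Lattice A] [NormedSpace ℝ A] [IsBanachLattice A]
  [SeparableSpace A]

/-- contractive case, arbitrary `X` -/
theorem lift_contractive (hA : Semiprojective.{u, v} A)
    (X : Type v) [NormedAddCommGroup X] [Lattice X] [NormedSpace ℝ X] [IsBanachLattice X]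
    (J : ClosedIdeal X)
    (T : A →L[ℝ] (X ⧸ J.toSubmodule)) (hT : IsLatticeHom T) (hT1 : ‖T‖ ≤ 1) (ε : ℝ) (hε : 0 < ε) :
    ∃ T' : A →L[ℝ] X, IsLatticeHom T' ∧
      (∀ a, (Submodule.Quotient.mk (T' a) : X ⧸ J.toSubmodule) = T a) ∧ ‖T'‖ ≤ 1 + ε := by
  have hJ : (J.toSubmodule : Set X) = closure (⋃ _ : ℕ, (J.toSubmodule : Set X)) := by
    rw [iUnion_const]
    exact (IsClosed.closure_eq J.isClosed').symm
  obtain ⟨S, hSsep, -, hSn, hSφ⟩ := separable_reduction J (fun _ => J) (fun _ => le_rfl) hJ T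
  have hiso : ∀ x, ‖(kappa J S).toLinearMap x‖ = ‖x‖ := by
    intro x
    obtain ⟨x, rfl⟩ := Submodule.Quotient.mk_surjective _ x
    exact (hSn x).symm
  let κ : (S.toSubmodule ⧸ (J.comap S).toSubmodule) →ₗᵢ[ℝ] (X ⧸ J.toSubmodule) :=
    ⟨(kappa J S).toLinearMap, hiso⟩
  have hrange : ∀ a, T a ∈ LinearMap.range κ.toLinearMap := by
    intro a
    obtain ⟨x, hx⟩ := hSφ a
    exact ⟨Submodule.Quotient.mk x, by rw [hx]; rfl⟩
  let T1 : A →L[ℝ] LinearMap.range κ.toLinearMap := T.codRestrict _ hrange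
  let TS : A →L[ℝ] (S.toSubmodule ⧸ (J.comap S).toSubmodule) :=
    (κ.equivRange.symm.toContinuousLinearEquiv : LinearMap.range κ.toLinearMap →L[ℝ] _).comp T1
  have hTS : ∀ a, kappa J S (TS a) = T a := by
    intro a
    have h1 : κ.equivRange (TS a) = T1 a := by
      change κ.equivRange (κ.equivRange.symm (T1 a)) = T1 a
      exact κ.equivRange.apply_symm_apply _
    have h2 := congrArg (Subtype.val) h1
    exact h2
  have hinj : Function.Injective (kappa J S) := fun x y hxy => κ.injective hxy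
  have hTS_lat : IsLatticeHom TS := by
    intro a
    apply hinj
    rw [hTS, kappa_abs, hTS]
    exact hT a
  have hTS_norm : ‖TS‖ ≤ 1 := by
    apply ContinuousLinearMap.opNorm_le_bound _ zero_le_one
    intro a
    rw [← hiso]
    change ‖kappa J S (TS a)‖ ≤ _
    rw [hTS]
    refine (T.le_opNorm a).trans ?_
    exact mul_le_mul_of_nonneg_right hT1 (norm_nonneg a)
  obtain ⟨T', hT'lat, hT'lift, hT'norm⟩ := lift_separable hA (J.comap S) TS hTS_lat hTS_norm ε hε
  refine ⟨S.toSubmodule.subtypeL.comp T', ?_, ?_, ?_⟩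
  · intro a
    change ((T' |a| : S.toSubmodule) : X) = |((T' a : S.toSubmodule) : X)|
    rw [hT'lat a, sub_coe_abs]
  · intro a
    change (Submodule.Quotient.mk ((T' a : S.toSubmodule) : X) : X ⧸ J.toSubmodule) = T a
    rw [← kappa_mk, hT'lift, hTS]
  · refine (ContinuousLinearMap.opNorm_comp_le _ _).trans ?_
    have h1 : ‖S.toSubmodule.subtypeL‖ ≤ 1 := Submodule.norm_subtypeL_le _
    have h2 := norm_nonneg T'
    nlinarith

/-- **Main theorem**: every semiprojective separable Banach lattice is `1⁺`-projective. -/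
theorem main (A : Type u) [NormedAddCommGroup A] [Lattice A] [NormedSpace ℝ A]
    [IsBanachLattice A] [SeparableSpace A] (hA : Semiprojective.{u, v} A) :
    OnePlusProjective.{u, v} A := by
  intro X _ _ _ _ J T hT ε hε
  by_cases hT0 : ‖T‖ = 0
  · have hT00 : ∀ a, T a = 0 := by
      intro a
      have h1 := T.le_opNorm a
      rw [hT0, zero_mul] at h1
      exact norm_le_zero_iff.1 h1
    refine ⟨0, ?_, ?_, ?_⟩
    · intro a; simp
    · intro a; rw [hT00]; simp
    · rw [norm_zero, hT0, mul_zero]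
  · have hpos : 0 < ‖T‖ := lt_of_le_of_ne (norm_nonneg T) (Ne.symm hT0)
    have hlat1 : IsLatticeHom (‖T‖⁻¹ • T) := by
      intro a
      change ‖T‖⁻¹ • T |a| = |‖T‖⁻¹ • T a|
      rw [abs_smul_of_nonneg (inv_nonneg.2 (norm_nonneg T)), hT a]
    have hnorm1 : ‖‖T‖⁻¹ • T‖ ≤ 1 := by
      apply ContinuousLinearMap.opNorm_le_bound _ zero_le_one
      intro a
      change ‖‖T‖⁻¹ • T a‖ ≤ 1 * ‖a‖
      rw [norm_smul, Real.norm_of_nonneg (inv_nonneg.2 hpos.le), one_mul,
        inv_mul_le_iff₀ hpos]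
      exact T.le_opNorm a
    obtain ⟨T', h1, h2, h3⟩ := lift_contractive hA X J (‖T‖⁻¹ • T) hlat1 hnorm1 ε hε
    refine ⟨‖T‖ • T', ?_, ?_, ?_⟩
    · intro a
      change ‖T‖ • T' |a| = |‖T‖ • T' a|
      rw [abs_smul_of_nonneg (norm_nonneg T), h1 a]
    · intro a
      change (Submodule.Quotient.mk (‖T‖ • T' a) : X ⧸ J.toSubmodule) = T a
      rw [Submodule.Quotient.mk_smul, h2 a]
      change ‖T‖ • (‖T‖⁻¹ • T a) = T a
      rw [smul_smul, mul_inv_cancel₀ hT0, one_smul]
    · rw [norm_smul, Real.norm_of_nonneg hpos.le, mul_comm]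
      exact mul_le_mul_of_nonneg_right h3 hpos.le

end Final

end Pool.Agent.H45.BanachLattice
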